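import Pool.Agent.V1121.QG.Root

set_option autoImplicit false

namespace Pool.Agent.V1121.QG

open CoxeterSystem

section E
variable {G : Type*} [Group G]

/-- elements of the dihedral group generated by the involutions `a, b`, indexed by integers. -/
def E (a b : G) (k : ℤ) : G := if Even k then (a * b) ^ (k / 2) else (a * b) ^ (k / 2) * a

lemma E_even (a b : G) (m : ℤ) : E a b (2 * m) = (a * b) ^ m := by
  have h : (2 * m) / 2 = m := by omega
  rw [E, if_pos (even_two_mul m), h]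

lemma E_odd (a b : G) (m : ℤ) : E a b (2 * m + 1) = (a * b) ^ m * a := by
  have h : (2 * m + 1) / 2 = m := by omega
  have h2 : ¬ Even (2 * m + 1) := by
    rw [Int.not_even_iff_odd]; exact ⟨m, rfl⟩
  rw [E, if_neg h2, h]

@[simp] lemma E_zero (a b : G) : E a b 0 = 1 := by
  have := E_even a b 0
  simpa using this

lemma E_one (a b : G) : E a b 1 = a := by
  have := E_odd a b 0
  simpa using this

lemma E_neg_one {a b : G} (hb : b * b = 1) : E a b (-1) = b := by
  have h := E_odd a b (-1)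
  have e : (2 * (-1) + 1 : ℤ) = -1 := by norm_num
  rw [e] at h
  rw [h, zpow_neg, zpow_one, mul_inv_rev, inv_mul_cancel_right]
  exact inv_eq_of_mul_eq_one_left hb

lemma E_mul_even (a b : G) (j k : ℤ) : E a b (2 * j) * E a b k = E a b (2 * j + k) := by
  rcases Int.even_or_odd' k with ⟨m, rfl | rfl⟩
  · rw [E_even, E_even, ← zpow_add, ← mul_add, E_even]
  · have e : 2 * j + (2 * m + 1) = 2 * (j + m) + 1 := by ring
    rw [E_even, E_odd, e, E_odd, zpow_add, mul_assoc]

lemma E_mul_odd {a b : G} (ha : a * a = 1) (hb : b * b = 1) (j k : ℤ) :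
    E a b (2 * j + 1) * E a b k = E a b (2 * j + 1 - k) := by
  rcases Int.even_or_odd' k with ⟨m, rfl | rfl⟩
  · have e : 2 * j + 1 - 2 * m = 2 * (j - m) + 1 := by ring
    rw [E_odd, E_even, e, E_odd, mul_assoc, inv_conj_zpow ha hb, ← mul_assoc, ← zpow_add,
      sub_eq_add_neg]
  · have e : 2 * j + 1 - (2 * m + 1) = 2 * (j - m) := by ring
    rw [E_odd, E_odd, e, E_even, mul_assoc, ← mul_assoc a, inv_conj_zpow ha hb, mul_assoc, ha,
      mul_one, ← zpow_add, sub_eq_add_neg]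

lemma a_mul_E {a b : G} (ha : a * a = 1) (hb : b * b = 1) (k : ℤ) :
    a * E a b k = E a b (1 - k) := by
  have := E_mul_odd ha hb 0 k
  simpa [E_one] using this

lemma b_mul_E {a b : G} (ha : a * a = 1) (hb : b * b = 1) (k : ℤ) :
    b * E a b k = E a b (-1 - k) := by
  have := E_mul_odd ha hb (-1) k
  have e : (2 * (-1) + 1 : ℤ) = -1 := by norm_num
  rwa [e, E_neg_one hb] at this

lemma E_div {a b : G} (ha : a * a = 1) (hb : b * b = 1) (k' k : ℤ) :
    ∃ l : ℤ, E a b k' * (E a b k)⁻¹ = E a b l := by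
  rcases Int.even_or_odd' k with ⟨m, rfl | rfl⟩
  · have hinv : (E a b (2 * m))⁻¹ = E a b (2 * (-m)) := by
      rw [inv_eq_iff_mul_eq_one, E_mul_even]; simp
    rw [hinv]
    rcases Int.even_or_odd' k' with ⟨m', rfl | rfl⟩
    · exact ⟨_, E_mul_even _ _ _ _⟩
    · exact ⟨_, E_mul_odd ha hb _ _⟩
  · have hinv : (E a b (2 * m + 1))⁻¹ = E a b (2 * m + 1) := by
      rw [inv_eq_iff_mul_eq_one, E_mul_odd ha hb]; simp
    rw [hinv]
    rcases Int.even_or_odd' k' with ⟨m', rfl | rfl⟩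
    · exact ⟨_, E_mul_even _ _ _ _⟩
    · exact ⟨_, E_mul_odd ha hb _ _⟩

/-- `E` is periodic if `a b` has finite order. -/
lemma E_period (a b : G) (k m : ℤ) : E a b (k + 2 * orderOf (a * b) * m) = E a b k := by
  have h1 : ((a * b) ^ (orderOf (a * b) * m : ℤ)) = 1 := by
    rw [zpow_mul, zpow_natCast, pow_orderOf_eq_one, one_zpow]
  have h2 := E_mul_even a b (orderOf (a * b) * m) k
  rw [E_even, h1, one_mul] at h2
  rw [h2]; congr 1; ring

/-- normalised index -/
lemma exists_small (a b : G) (k : ℤ) (hN : 0 < orderOf (a * b)) :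
    ∃ k' : ℤ, |k'| ≤ orderOf (a * b) ∧ E a b k' = E a b k ∧ (∃ m : ℤ, k' = k + 2 * orderOf (a * b) * m) := by
  set N : ℤ := (orderOf (a * b) : ℤ) with hNdef
  have hN' : 0 < N := by rw [hNdef]; exact_mod_cast hN
  refine ⟨(k + N) % (2 * N) - N, ?_, ?_, ?_⟩
  · have h1 := Int.emod_nonneg (k + N) (by omega : (2 * N) ≠ 0)
    have h2 := Int.emod_lt_of_pos (k + N) (by omega : 0 < 2 * N)
    rw [abs_le]; omega
  · have h := Int.emod_add_mul_ediv (k + N) (2 * N)
    have e : (k + N) % (2 * N) - N = k + 2 * N * (-((k + N) / (2 * N))) := by linarith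
    rw [e, hNdef, E_period]
  · have h := Int.emod_add_mul_ediv (k + N) (2 * N)
    exact ⟨-((k + N) / (2 * N)), by linarith⟩

end E

variable {B : Type*} {M : CoxeterMatrix B}
variable {W : Type*} [Group W]

/-- A canonical pair of a dihedral reflection subgroup, `D` its set of reflections. -/
structure CanPair (cs : CoxeterSystem M W) (a b : W) (D : Set W) : Prop where
  refl : ∀ t ∈ D, cs.IsReflection t
  conj : ∀ t ∈ D, ∀ u ∈ D, t * u * t⁻¹ ∈ D
  ha : a ∈ D
  hb : b ∈ D
  ne : a ≠ b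
  ca : ∀ t ∈ D, t ≠ a → 0 ≤ geo cs a (rt cs t)
  cb : ∀ t ∈ D, t ≠ b → 0 ≤ geo cs b (rt cs t)
  cone : ∀ t ∈ D, ∃ x y : ℝ, 0 ≤ x ∧ 0 ≤ y ∧ rt cs t = x • rt cs a + y • rt cs b

variable {cs : CoxeterSystem M W} {a b : W} {D : Set W}

lemma parity_E (har : cs.IsReflection a) (hbr : cs.IsReflection b) (k : ℤ) :
    (cs.length (E a b k) : ℤ) % 2 = k % 2 := by
  have key : ∀ n : ℕ, (cs.length (E a b n) : ℤ) % 2 = (n : ℤ) % 2 ∧
      (cs.length (E a b (-n)) : ℤ) % 2 = (n : ℤ) % 2 := by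
    intro n
    induction n with
    | zero => simp
    | succ n ih =>
      have e1 : ((n + 1 : ℕ) : ℤ) = 1 - (-(n : ℤ)) := by push_cast; ring
      have e2 : -((n + 1 : ℕ) : ℤ) = -1 - (n : ℤ) := by push_cast; ring
      have h1 : cs.length (E a b ((n + 1 : ℕ) : ℤ)) % 2 = (cs.length a + cs.length (E a b (-(n : ℤ)))) % 2 := by
        rw [e1, ← a_mul_E har.mul_self hbr.mul_self, cs.length_mul_mod_two]
      have h2 : cs.length (E a b (-((n + 1 : ℕ) : ℤ))) % 2 = (cs.length b + cs.length (E a b (n : ℤ))) % 2 := by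
        rw [e2, ← b_mul_E har.mul_self hbr.mul_self, cs.length_mul_mod_two]
      have h3 := Nat.odd_iff.mp har.odd_length
      have h4 := Nat.odd_iff.mp hbr.odd_length
      obtain ⟨i1, i2⟩ := ih
      constructor
      · push_cast at h1 ⊢; omega
      · push_cast at h2 ⊢; omega
  rcases Int.eq_nat_or_neg k with ⟨n, rfl | rfl⟩
  · exact (key n).1
  · have := (key n).2; omega

/-- every element of odd index is a reflection -/
lemma isReflection_E (har : cs.IsReflection a) (hbr : cs.IsReflection b) (j : ℤ) :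
    cs.IsReflection (E a b (2 * j + 1)) := by
  rw [E_odd]; exact refl_zpow har hbr j

/-- injectivity modulo the period -/
lemma E_inj (har : cs.IsReflection a) (hbr : cs.IsReflection b) {k k' : ℤ} (h : E a b k = E a b k') :
    (2 * orderOf (a * b) : ℤ) ∣ k - k' := by
  have h1 := parity_E (cs := cs) har hbr k
  have h2 := parity_E (cs := cs) har hbr k'
  rw [h] at h1
  obtain ⟨m, hm⟩ : ∃ m, k = 2 * m + k' := ⟨(k - k') / 2, by
    have h12 : (k - k') % 2 = 0 := by omega
    omega⟩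
  rw [hm, ← E_mul_even, mul_eq_right, E_even] at h
  have h3 := orderOf_dvd_iff_zpow_eq_one.mpr h
  obtain ⟨c, hc⟩ := h3
  exact ⟨c, by rw [hm, hc]; ring⟩

namespace CanPair

variable (H : CanPair cs a b D)
include H

lemma aR : cs.IsReflection a := H.refl a H.ha
lemma bR : cs.IsReflection b := H.refl b H.hb

/-- minimal coset representatives (for left multiplication) -/
lemma exists_rep (x : W) : ∃ (k : ℤ) (y : W), x = E a b k * y ∧
    0 ≤ geo cs y⁻¹ (rt cs a) ∧ 0 ≤ geo cs y⁻¹ (rt cs b) := by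
  induction hn : cs.length x using Nat.strong_induction_on generalizing x with
  | _ n ih =>
  have step : ∀ c : W, cs.IsReflection c → ¬ 0 ≤ geo cs x⁻¹ (rt cs c) → cs.length (c * x) < n := by
    intro c hc h
    have h1 := (((rt_isRt hc).geo x⁻¹).not_nonneg).mp h
    have h2 := (length_gt_iff hc).mpr h1
    rw [← cs.length_inv, mul_inv_rev, inv_inv, hc.inv, cs.length_inv] at h2
    omega
  by_cases h1 : 0 ≤ geo cs x⁻¹ (rt cs a)
  · by_cases h2 : 0 ≤ geo cs x⁻¹ (rt cs b)
    · exact ⟨0, x, by simp, h1, h2⟩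
    · obtain ⟨k, y, hy, h3, h4⟩ := ih _ (step b H.bR h2) (b * x) rfl
      refine ⟨-1 - k, y, ?_, h3, h4⟩
      rw [← b_mul_E H.aR.mul_self H.bR.mul_self, mul_assoc, ← hy, ← mul_assoc, H.bR.mul_self, one_mul]
  · obtain ⟨k, y, hy, h3, h4⟩ := ih _ (step a H.aR h1) (a * x) rfl
    refine ⟨1 - k, y, ?_, h3, h4⟩
    rw [← a_mul_E H.aR.mul_self H.bR.mul_self, mul_assoc, ← hy, ← mul_assoc, H.aR.mul_self, one_mul]

lemma min_pos {y : W} (h3 : 0 ≤ geo cs y (rt cs a)) (h4 : 0 ≤ geo cs y (rt cs b)) {t : W} (ht : t ∈ D) :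
    0 ≤ geo cs y (rt cs t) := by
  obtain ⟨p, q, hp, hq, h⟩ := H.cone t ht
  rw [h, map_add, map_smul, map_smul]
  exact add_nonneg (smul_nonneg hp h3) (smul_nonneg hq h4)

/-- exchange in a dihedral coset -/
lemma exch {y : W} (h3 : 0 ≤ geo cs y⁻¹ (rt cs a)) (h4 : 0 ≤ geo cs y⁻¹ (rt cs b)) (n : ℕ) :
    (∀ t ∈ D, geo cs (E a b n * y)⁻¹ (rt cs t) ≤ 0 → ∃ k' : ℤ, |k'| < n ∧ t * E a b n = E a b k') ∧
    (∀ t ∈ D, geo cs (E a b (-n) * y)⁻¹ (rt cs t) ≤ 0 →
      ∃ k' : ℤ, |k'| < n ∧ t * E a b (-n) = E a b k') := by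
  have haa := H.aR.mul_self
  have hbb := H.bR.mul_self
  induction n with
  | zero =>
    have : ∀ t ∈ D, ¬ geo cs y⁻¹ (rt cs t) ≤ 0 := fun t ht h =>
      ((rt_isRt (H.refl t ht)).geo _).not_both (H.min_pos h3 h4 ht) h
    constructor
    · intro t ht h
      exact absurd (by simpa using h) (this t ht)
    · intro t ht h
      exact absurd (by simpa using h) (this t ht)
  | succ n ih =>
    obtain ⟨i1, i2⟩ := ih
    constructor
    · intro t ht h
      have e1 : E a b ((n + 1 : ℕ) : ℤ) = a * E a b (-(n : ℤ)) := by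
        rw [a_mul_E haa hbb]; congr 1; push_cast; ring
      by_cases hta : t = a
      · refine ⟨-n, by rw [abs_neg]; simp, ?_⟩
        rw [e1, hta, ← mul_assoc, haa, one_mul]
      · have hu := H.conj a H.ha t ht
        have hrt : rt cs (a * t * a⁻¹) = geo cs a (rt cs t) := rt_conj_pos (H.refl t ht) a (H.ca t ht hta)
        have h5 : geo cs (E a b (-(n : ℤ)) * y)⁻¹ (rt cs (a * t * a⁻¹)) ≤ 0 := by
          rw [hrt, geo_geo]
          have e2 : (E a b (-(n : ℤ)) * y)⁻¹ * a = (E a b ((n + 1 : ℕ) : ℤ) * y)⁻¹ := by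
            rw [e1, mul_assoc a, mul_inv_rev a, H.aR.inv]
          rw [e2]; exact h
        obtain ⟨k', hk', h6⟩ := i2 _ hu h5
        refine ⟨1 - k', ?_, ?_⟩
        · have := abs_sub (1 : ℤ) k'
          rw [abs_one] at this
          push_cast
          have h7 : |1 - k'| ≤ 1 + |k'| := by
            calc |1 - k'| ≤ |1| + |k'| := abs_sub _ _
              _ = _ := by rw [abs_one]
          omega
        · rw [e1, ← a_mul_E haa hbb, ← h6, H.aR.inv]
          calc t * (a * E a b (-(n : ℤ))) = (a * a) * t * a * E a b (-(n : ℤ)) := by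
                rw [haa, one_mul, mul_assoc]
            _ = _ := by simp only [mul_assoc]
    · intro t ht h
      have e1 : E a b (-((n + 1 : ℕ) : ℤ)) = b * E a b (n : ℤ) := by
        rw [b_mul_E haa hbb]; congr 1; push_cast; ring
      by_cases hta : t = b
      · refine ⟨n, by simp, ?_⟩
        rw [e1, hta, ← mul_assoc, hbb, one_mul]
      · have hu := H.conj b H.hb t ht
        have hrt : rt cs (b * t * b⁻¹) = geo cs b (rt cs t) := rt_conj_pos (H.refl t ht) b (H.cb t ht hta)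
        have h5 : geo cs (E a b (n : ℤ) * y)⁻¹ (rt cs (b * t * b⁻¹)) ≤ 0 := by
          rw [hrt, geo_geo]
          have e2 : (E a b (n : ℤ) * y)⁻¹ * b = (E a b (-((n + 1 : ℕ) : ℤ)) * y)⁻¹ := by
            rw [e1, mul_assoc b, mul_inv_rev b, H.bR.inv]
          rw [e2]; exact h
        obtain ⟨k', hk', h6⟩ := i1 _ hu h5
        refine ⟨-1 - k', ?_, ?_⟩
        · push_cast
          have h7 : |-1 - k'| ≤ 1 + |k'| := by
            calc |-1 - k'| ≤ |-1| + |k'| := abs_sub _ _
              _ = _ := by rw [abs_neg, abs_one]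
          omega
        · rw [e1, ← b_mul_E haa hbb, ← h6, H.bR.inv]
          calc t * (b * E a b (n : ℤ)) = (b * b) * t * b * E a b (n : ℤ) := by
                rw [hbb, one_mul, mul_assoc]
            _ = _ := by simp only [mul_assoc]

lemma exch' {y : W} (h3 : 0 ≤ geo cs y⁻¹ (rt cs a)) (h4 : 0 ≤ geo cs y⁻¹ (rt cs b)) (k : ℤ)
    {t : W} (ht : t ∈ D) (h : cs.length (t * (E a b k * y)) < cs.length (E a b k * y)) :
    ∃ k' : ℤ, |k'| < |k| ∧ t * E a b k = E a b k' := by
  have hr := H.refl t ht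
  have h1 : geo cs (E a b k * y)⁻¹ (rt cs t) ≤ 0 := by
    rw [← length_gt_iff hr, ← cs.length_inv, mul_inv_rev, inv_inv, hr.inv, cs.length_inv (E a b k * y)]
    exact h
  rcases Int.eq_nat_or_neg k with ⟨n, rfl | rfl⟩
  · obtain ⟨k', h5, h6⟩ := (H.exch h3 h4 n).1 t ht h1
    exact ⟨k', by simpa using h5, h6⟩
  · obtain ⟨k', h5, h6⟩ := (H.exch h3 h4 n).2 t ht h1
    exact ⟨k', by simpa using h5, h6⟩

/-- every reflection of `D` is of the form `E (2j+1)` -/
lemma mem_form {t : W} (ht : t ∈ D) : ∃ j : ℤ, t = E a b (2 * j + 1) := by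
  have hr := H.refl t ht
  have haa := H.aR.mul_self
  have hbb := H.bR.mul_self
  obtain ⟨k, y, hk, h3, h4⟩ := H.exists_rep t
  have h1 : cs.length (t * (E a b k * y)) < cs.length (E a b k * y) := by
    rw [← hk, hr.mul_self, cs.length_one]
    exact hr.odd_length.pos
  obtain ⟨k', _, h6⟩ := H.exch' h3 h4 k ht h1
  have h7 : ∃ l : ℤ, t = E a b l := by
    have h8 : t = E a b k' * (E a b k)⁻¹ := by rw [← h6]; group
    exact h8 ▸ E_div haa hbb k' k
  obtain ⟨l, hl⟩ := h7
  have h9 := parity_E (cs := cs) H.aR H.bR l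
  rw [← hl] at h9
  have h11 := Nat.odd_iff.mp hr.odd_length
  exact ⟨l / 2, by rw [hl]; congr 1; omega⟩

end CanPair

end Pool.Agent.V1121.QG
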