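import Pool.Agent.V1121.QG.Par

set_option autoImplicit false

namespace Pool.Agent.V1121.QG

open CoxeterSystem

variable {B : Type*} {M : CoxeterMatrix B}
variable {W : Type*} [Group W]
variable {cs : CoxeterSystem M W}

/-! ### the diamond step -/

lemma lift_right {t : W} (ht : cs.IsReflection t) (w : W) (i : B)
    (h1 : cs.length (w * t) = cs.length w + 1) (h2 : cs.length w < cs.length (w * cs.simple i))
    (h3 : cs.length (w * t * cs.simple i) < cs.length (w * t)) : w * t = w * cs.simple i := by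
  by_contra hne
  have hti : t ≠ cs.simple i := by rintro rfl; exact hne rfl
  have hpos : 0 ≤ geo cs (cs.simple i) (rt cs t) := by
    by_contra hcon
    apply hti
    apply rt_inj ht (cs.isReflection_simple i)
    rw [rt_simple]
    exact (rt_PR ht).eq_ee ((((rt_isRt ht).geo _).not_nonneg).mp hcon)
  have hrt := rt_conj_pos ht (cs.simple i) hpos
  have hr := ht.conj (cs.simple i)
  have h4 : 0 ≤ geo cs w (rt cs t) := (length_lt_iff ht).mp (by omega)
  have h5 : 0 ≤ geo cs (w * cs.simple i) (rt cs (cs.simple i * t * (cs.simple i)⁻¹)) := by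
    rw [hrt, geo_geo, mul_assoc, cs.simple_mul_simple_self, mul_one]; exact h4
  have h6 := (length_lt_iff hr).mpr h5
  have e : w * cs.simple i * (cs.simple i * t * (cs.simple i)⁻¹) = w * t * cs.simple i := by
    rw [cs.inv_simple]
    calc w * cs.simple i * (cs.simple i * t * cs.simple i)
        = w * (cs.simple i * cs.simple i) * t * cs.simple i := by simp only [mul_assoc]
      _ = _ := by rw [cs.simple_mul_simple_self, mul_one]
  rw [e] at h6
  omega

lemma lift_left {t : W} (ht : cs.IsReflection t) (w : W) (i : B)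
    (h1 : cs.length (t * w) = cs.length w + 1) (h2 : cs.length w < cs.length (cs.simple i * w))
    (h3 : cs.length (cs.simple i * (t * w)) < cs.length (t * w)) : t * w = cs.simple i * w := by
  have e1 : (t * w)⁻¹ = w⁻¹ * t := by rw [mul_inv_rev, ht.inv]
  have e2 : (cs.simple i * w)⁻¹ = w⁻¹ * cs.simple i := by rw [mul_inv_rev, cs.inv_simple]
  have e3 : (cs.simple i * (t * w))⁻¹ = w⁻¹ * t * cs.simple i := by
    rw [mul_inv_rev, e1, cs.inv_simple]
  have h := lift_right ht w⁻¹ i (by rw [← e1, cs.length_inv, cs.length_inv]; exact h1)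
    (by rw [← e2, cs.length_inv, cs.length_inv]; exact h2)
    (by rw [← e3, ← e1, cs.length_inv, cs.length_inv]; exact h3)
  rw [← e1, ← e2] at h
  exact inv_injective h

lemma diamond {x z t1 t2 : W} {i j : B} (ht1 : cs.IsReflection t1) (ht2 : cs.IsReflection t2)
    (h1 : cs.length (t1 * x) = cs.length x + 1) (hz : z = t2 * (t1 * x))
    (hzl : cs.length z = cs.length x + 2)
    (hx2 : cs.length (cs.simple i * x * cs.simple j) = cs.length x + 2)
    (hz2 : cs.length (cs.simple i * z * cs.simple j) = cs.length x) :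
    z = cs.simple i * x * cs.simple j := by
  set s := cs.simple i with hs
  set s' := cs.simple j with hs'
  have hss : s * s = 1 := cs.simple_mul_simple_self i
  have hss' : s' * s' = 1 := cs.simple_mul_simple_self j
  have a1 : cs.length x < cs.length (s * x) := by
    have := cs.length_mul_simple (s * x) j
    have := cs.length_simple_mul x i
    rw [← hs] at this
    rw [← hs'] at *
    omega
  have a2 : cs.length x < cs.length (x * s') := by
    have h3 := cs.length_simple_mul (x * s') i
    have h4 := cs.length_mul_simple x j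
    rw [← hs, ← mul_assoc] at h3
    rw [← hs'] at h4
    omega
  have a3 : cs.length (s * z) < cs.length z := by
    have h3 := cs.length_mul_simple (s * z) j
    have h4 := cs.length_simple_mul z i
    rw [← hs'] at h3
    rw [← hs] at h4
    omega
  have a4 : cs.length (z * s') < cs.length z := by
    have h3 := cs.length_simple_mul (z * s') i
    have h4 := cs.length_mul_simple z j
    rw [← hs, ← mul_assoc] at h3
    rw [← hs'] at h4
    omega
  set y := t1 * x with hy
  -- left
  have L : y = s * x ∨ z = s * y := by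
    rcases cs.length_simple_mul y i with h3 | h3
    · right
      rw [hz]
      apply lift_left ht2 y i
      · rw [← hz]; omega
      · omega
      · rw [← hz]; exact a3
    · left
      exact lift_left ht1 x i h1 a1 (by rw [← hy]; omega)
  have R : y = x * s' ∨ z = y * s' := by
    have e1 : y = x * (x⁻¹ * t1 * x⁻¹⁻¹) := by rw [hy]; group
    have e2 : z = y * (y⁻¹ * t2 * y⁻¹⁻¹) := by rw [hz]; group
    rcases cs.length_mul_simple y j with h3 | h3
    · right
      have := lift_right (ht2.conj y⁻¹) y j (by rw [← e2]; omega) (by omega) (by rw [← e2]; exact a4)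
      rw [← e2] at this
      exact this
    · left
      have := lift_right (ht1.conj x⁻¹) x j (by rw [← e1]; exact h1) a2 (by rw [← e1]; omega)
      rw [← e1] at this
      exact this
  rcases L with L | L <;> rcases R with R | R
  · exfalso
    have : s * x * s' = x := by rw [← L, R, mul_assoc, hss', mul_one]
    rw [this] at hx2; omega
  · rw [R, L]
  · rw [L, R, ← mul_assoc]
  · exfalso
    have : s * z * s' = z := by
      have e : s * z = y := by rw [L, ← mul_assoc, hss, one_mul]
      rw [e, ← R]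
    rw [this] at hz2; omega

/-! ### the parabolic case -/

namespace CanPair

variable {a b : W} {D : Set W} (H : CanPair cs a b D)
include H

lemma len_simple {i j : B} (ha : a = cs.simple i) (hb : b = cs.simple j) {y : W}
    (h3 : 0 ≤ geo cs y⁻¹ (rt cs a)) (h4 : 0 ≤ geo cs y⁻¹ (rt cs b)) {k : ℤ}
    (hk : |k| ≤ orderOf (a * b)) : (cs.length (E a b k * y) : ℤ) = |k| + cs.length y := by
  have haa := H.aR.mul_self
  have hbb := H.bR.mul_self
  have key : ∀ n : ℕ, n ≤ orderOf (a * b) →
      cs.length (E a b n * y) = n + cs.length y ∧ cs.length (E a b (-n) * y) = n + cs.length y := by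
    intro n
    induction n with
    | zero => intro _; simp
    | succ n ih =>
      intro hn
      obtain ⟨i1, i2⟩ := ih (by omega)
      have hn' : (((n + 1 : ℕ) : ℤ)) ≤ orderOf (a * b) := by exact_mod_cast hn
      have e1 : E a b ((n + 1 : ℕ) : ℤ) = a * E a b (-(n : ℤ)) := by
        rw [a_mul_E haa hbb]; congr 1; push_cast; ring
      have e2 : E a b (-((n + 1 : ℕ) : ℤ)) = b * E a b (n : ℤ) := by
        rw [b_mul_E haa hbb]; congr 1; push_cast; ring
      have u1 : cs.length (E a b ((n + 1 : ℕ) : ℤ) * y) ≤ n + 1 + cs.length y := by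
        rw [e1, mul_assoc]
        have := cs.length_mul_le a (E a b (-(n : ℤ)) * y)
        rw [ha, cs.length_simple, ← ha] at this
        omega
      have u2 : cs.length (E a b (-((n + 1 : ℕ) : ℤ)) * y) ≤ n + 1 + cs.length y := by
        rw [e2, mul_assoc]
        have := cs.length_mul_le b (E a b (n : ℤ) * y)
        rw [hb, cs.length_simple, ← hb] at this
        omega
      have m1 := H.mono (k := (n : ℤ)) (k' := ((n + 1 : ℕ) : ℤ)) h3 h4
        (by rw [abs_of_nonneg (by positivity), abs_of_nonneg (by positivity)]; push_cast; omega)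
        (Or.inr (by rw [abs_of_nonneg (by positivity)]; exact hn'))
      have m2 := H.mono (k := -(n : ℤ)) (k' := -((n + 1 : ℕ) : ℤ)) h3 h4
        (by rw [abs_neg, abs_neg, abs_of_nonneg (by positivity), abs_of_nonneg (by positivity)]; push_cast; omega)
        (Or.inr (by rw [abs_neg, abs_of_nonneg (by positivity)]; exact hn'))
      constructor <;> omega
  rcases Int.eq_nat_or_neg k with ⟨n, rfl | rfl⟩
  · have hn : n ≤ orderOf (a * b) := by
      rw [abs_of_nonneg (by positivity)] at hk; exact_mod_cast hk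
    rw [(key n hn).1, abs_of_nonneg (by positivity)]; push_cast; ring
  · have hn : n ≤ orderOf (a * b) := by
      rw [abs_neg, abs_of_nonneg (by positivity)] at hk; exact_mod_cast hk
    rw [(key n hn).2, abs_neg, abs_of_nonneg (by positivity)]; push_cast; ring

lemma flip {i j : B} (ha : a = cs.simple i) (hb : b = cs.simple j) {y : W}
    (h3 : 0 ≤ geo cs y⁻¹ (rt cs a)) (h4 : 0 ≤ geo cs y⁻¹ (rt cs b)) {k k0 : ℤ}
    (hk : |k| ≤ orderOf (a * b)) (hk0 : |k0| = orderOf (a * b)) (hodd : k0 % 2 = 1) :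
    (cs.length (E a b k0 * (E a b k * y)) : ℤ) = orderOf (a * b) - |k| + cs.length y := by
  have haa := H.aR.mul_self
  have hbb := H.bR.mul_self
  obtain ⟨m, hm⟩ : ∃ m, k0 = 2 * m + 1 := ⟨k0 / 2, by omega⟩
  have e : E a b k0 * (E a b k * y) = E a b (k0 - k) * y := by
    rw [← mul_assoc, hm, E_mul_odd haa hbb]
  rw [e]
  set N : ℤ := (orderOf (a * b) : ℤ) with hN
  obtain ⟨l, hl, hlE⟩ : ∃ l : ℤ, |l| = N - |k| ∧ E a b l = E a b (k0 - k) := by
    rcases abs_cases k0 with ⟨c1, c2⟩ | ⟨c1, c2⟩ <;> rcases abs_cases k with ⟨d1, d2⟩ | ⟨d1, d2⟩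
    · refine ⟨k0 - k, ?_, rfl⟩
      rw [abs_of_nonneg (by omega)]; omega
    · refine ⟨k0 - k - 2 * N, ?_, ?_⟩
      · rw [abs_of_nonpos (by omega)]; omega
      · have := E_period a b (k0 - k - 2 * N) 1
        rw [← this]; congr 1; rw [hN]; ring
    · refine ⟨k0 - k + 2 * N, ?_, ?_⟩
      · rw [abs_of_nonneg (by omega)]; omega
      · have := E_period a b (k0 - k) 1
        rw [← this]; congr 1; rw [hN]; ring
    · refine ⟨k0 - k, ?_, rfl⟩
      rw [abs_of_nonpos (by omega)]; omega
  rw [← hlE, H.len_simple ha hb h3 h4 (by rw [hl]; have := abs_nonneg k; omega), hl]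

lemma parabolic_case {i j : B} (ha : a = cs.simple i) (hb : b = cs.simple j)
    (hN : 0 < orderOf (a * b)) (x : W) {r r' : W} (hr : r ∈ D) (hr' : r' ∈ D) {k0 : ℤ}
    (hk0 : |k0| = orderOf (a * b)) (hodd : k0 % 2 = 1) (hrk : r = E a b k0)
    (hlen : cs.length (r * x) = cs.length (r' * x)) : cs.length (r * (r' * x)) = cs.length x := by
  have haa := H.aR.mul_self
  have hbb := H.bR.mul_self
  obtain ⟨p0, y, hx0, h3, h4⟩ := H.exists_rep x
  obtain ⟨p, hp, hpE, _⟩ := exists_small a b p0 hN
  rw [← hpE] at hx0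
  obtain ⟨j1, hj⟩ := H.mem_form hr
  obtain ⟨j', hj'⟩ := H.mem_form hr'
  obtain ⟨q, hq, hqE, _⟩ := exists_small a b (2 * j1 + 1 - (2 * j' + 1 - p)) hN
  have hz0 : r * (r' * x) = E a b q * y := by
    rw [hqE, hj, hj', hx0, ← mul_assoc, ← mul_assoc, mul_assoc (E a b (2 * j1 + 1)), E_mul_odd haa hbb,
      E_mul_odd haa hbb]
  have f1 := H.flip ha hb h3 h4 hp hk0 hodd
  have f2 := H.flip ha hb h3 h4 hq hk0 hodd
  rw [← hrk, ← hx0] at f1
  rw [← hrk, ← hz0, ← mul_assoc r r, (H.refl r hr).mul_self, one_mul] at f2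
  have l1 := H.len_simple ha hb h3 h4 hp
  have l2 := H.len_simple ha hb h3 h4 hq
  rw [← hx0] at l1
  rw [← hz0] at l2
  omega

end CanPair

lemma E_conj (g a b : W) (k : ℤ) : E (g * a * g⁻¹) (g * b * g⁻¹) k = g * E a b k * g⁻¹ := by
  have e : g * a * g⁻¹ * (g * b * g⁻¹) = g * (a * b) * g⁻¹ := by group
  rcases Int.even_or_odd' k with ⟨m, rfl | rfl⟩
  · rw [E_even, E_even, e, conj_zpow]
  · rw [E_odd, E_odd, e, conj_zpow]; group

/-- The core theorem. -/
theorem core (θ : W ≃* W) (hlen : ∀ g, cs.length (θ g) = cs.length g)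
    (hrefl : ∀ t, cs.IsReflection t → cs.IsReflection (θ t))
    (x : W) (hx : x * θ x = 1) (hθ : ∀ g, θ (θ g) = g)
    (hQ : ∀ u r, cs.IsReflection r → cs.length (r * (u * x * (θ u)⁻¹) * θ r) = cs.length (u * x * (θ u)⁻¹) →
      r * (u * x * (θ u)⁻¹) * θ r = u * x * (θ u)⁻¹)
    {r : W} (hr : cs.IsReflection r) (i j : B) (hij : θ (cs.simple i) = cs.simple j)
    (h1 : cs.length x < cs.length (r * x * θ r))
    (h2 : cs.length (cs.simple i * (r * x * θ r) * cs.simple j) < cs.length (cs.simple i * x * cs.simple j)) :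
    r * x * θ r = cs.simple i * x * cs.simple j := by
  set r' := x * θ r * x⁻¹ with hr'def
  have hr' : cs.IsReflection r' := (hrefl r hr).conj x
  have hz : r * x * θ r = r * (r' * x) := by rw [hr'def]; group
  have hlr : cs.length (r * x) = cs.length (r' * x) := by
    have e1 : r' * x = x * θ r := by rw [hr'def]; group
    have e2 : x⁻¹ = θ x := inv_eq_of_mul_eq_one_right hx
    rw [e1, ← cs.length_inv (x * θ r), mul_inv_rev, e2, ← map_inv, ← map_mul, hlen, hr.inv]
  have hodd := Nat.odd_iff.mp hr.odd_length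
  have hodd' := Nat.odd_iff.mp hr'.odd_length
  have p1 := cs.length_mul_mod_two r' x
  have p2 := cs.length_mul_mod_two r (r' * x)
  rw [hz] at h1 h2 ⊢
  set z := r * (r' * x) with hzdef
  have b1 := cs.length_simple_mul x i
  have b2 := cs.length_mul_simple (cs.simple i * x) j
  have b3 := cs.length_simple_mul z i
  have b4 := cs.length_mul_simple (cs.simple i * z) j
  have hzl : cs.length z = cs.length x + 2 := by omega
  have hx2 : cs.length (cs.simple i * x * cs.simple j) = cs.length x + 2 := by omega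
  have hz2 : cs.length (cs.simple i * z * cs.simple j) = cs.length x := by omega
  have hne : r' ≠ r := by
    intro h
    have : z = x := by rw [hzdef, h, ← mul_assoc, hr.mul_self, one_mul]
    rw [this] at hzl; omega
  obtain ⟨a, b, H⟩ := exists_canPair hr hr' hne
  have hrD : r ∈ DP cs r r' := ⟨hr, Submodule.subset_span (by simp)⟩
  have hr'D : r' ∈ DP cs r r' := ⟨hr', Submodule.subset_span (by simp)⟩
  rcases H.stepB x hrD hr'D hzl hlr with ⟨t1, t2, ht1, ht2, hl1, he⟩ | ⟨hN, k0, hk0, hrk, hodd0⟩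
  · exact diamond ht1 ht2 hl1 he hzl hx2 hz2
  · exfalso
    have hfull : ∀ t, cs.IsReflection t → rt cs t ∈ Submodule.span ℝ {rt cs a, rt cs b} →
        t ∈ DP cs r r' := by
      intro t ht h
      refine ⟨ht, ?_⟩
      have hsub : Submodule.span ℝ {rt cs a, rt cs b} ≤ Submodule.span ℝ {rt cs r, rt cs r'} := by
        rw [Submodule.span_le]
        rintro v (rfl | hv)
        · exact H.ha.2
        · rw [Set.mem_singleton_iff.mp hv]; exact H.hb.2
      exact hsub h
    obtain ⟨g, i', j', hij', ha, hb, hga, hgb⟩ := H.exists_parabolic hfull hN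
    have H' := H.transfer g⁻¹ hga hgb
    have ea : g⁻¹ * a * g⁻¹⁻¹ = cs.simple i' := by rw [ha]; group
    have eb : g⁻¹ * b * g⁻¹⁻¹ = cs.simple j' := by rw [hb]; group
    have eord : orderOf (g⁻¹ * a * g⁻¹⁻¹ * (g⁻¹ * b * g⁻¹⁻¹)) = orderOf (a * b) := by
      have e : g⁻¹ * a * g⁻¹⁻¹ * (g⁻¹ * b * g⁻¹⁻¹) = MulAut.conj g⁻¹ (a * b) := by
        rw [MulAut.conj_apply]; group
      rw [e]
      exact orderOf_injective (MulAut.conj g⁻¹).toMonoidHom (MulAut.conj g⁻¹).injective _
    set x' := g⁻¹ * x * (θ g⁻¹)⁻¹ with hx'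
    set ρ := g⁻¹ * r * g⁻¹⁻¹ with hρ
    set ρ' := g⁻¹ * r' * g⁻¹⁻¹ with hρ'
    have hρr : cs.IsReflection ρ := hr.conj g⁻¹
    have hρ'x : ρ' * x' = x' * θ ρ := by
      rw [hρ', hx', hρ, hr'def]
      simp only [map_mul, map_inv]
      group
    have hx'1 : x' * θ x' = 1 := by
      rw [hx']
      simp only [map_mul, map_inv, hθ]
      calc g⁻¹ * x * (θ g)⁻¹⁻¹ * ((θ g)⁻¹ * θ x * g⁻¹⁻¹) = g⁻¹ * (x * θ x) * g := by group
        _ = 1 := by rw [hx]; group
    have hlρ : cs.length (ρ * x') = cs.length (ρ' * x') := by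
      have e2 : x'⁻¹ = θ x' := inv_eq_of_mul_eq_one_right hx'1
      rw [hρ'x, ← cs.length_inv (x' * θ ρ), mul_inv_rev, e2, ← map_inv, ← map_mul, hlen, hρr.inv]
    have hfin := H'.parabolic_case ea eb (by rw [eord]; exact hN) x' (r := ρ) (r' := ρ')
      ⟨r, hrD, rfl⟩ ⟨r', hr'D, rfl⟩ (k0 := k0) (by rw [eord]; exact hk0) hodd0
      (by rw [E_conj, ← hrk]) hlρ
    have e3 : ρ * (ρ' * x') = ρ * x' * θ ρ := by rw [hρ'x]; exact (mul_assoc _ _ _).symm
    rw [e3] at hfin
    have h5 := hQ g⁻¹ ρ hρr hfin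
    rw [← e3] at h5
    have h6 : z = x := by
      have e4 : ρ * (ρ' * x') = g⁻¹ * z * (θ g⁻¹)⁻¹ := by
        rw [hρ, hρ', hx', hzdef]; group
      rw [e4] at h5
      have h7 : g⁻¹ * z * (θ g⁻¹)⁻¹ = g⁻¹ * x * (θ g⁻¹)⁻¹ := h5
      exact mul_left_cancel (mul_right_cancel h7)
    rw [h6] at hzl; omega

end Pool.Agent.V1121.QG
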