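import Pool.Agent.V1121.QG.Core

set_option autoImplicit false

namespace Pool.Agent.V1121.QG

open CoxeterSystem

variable {B : Type*} {M : CoxeterMatrix B}
variable {W : Type*} [Group W]
variable {cs : CoxeterSystem M W} {a b : W} {D : Set W}

namespace CanPair

variable (H : CanPair cs a b D)
include H

/-- the level comparison -/
lemma stepC (x : W) {r r' : W} (hr : r ∈ D) (hr' : r' ∈ D)
    (hz : cs.length (r * (r' * x)) < cs.length x)
    (hlen : cs.length (r * x) = cs.length (r' * x)) :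
    (∃ t1 t2, cs.IsReflection t1 ∧ cs.IsReflection t2 ∧
      cs.length (r * (r' * x)) < cs.length (t1 * (r * (r' * x))) ∧
      cs.length (t1 * (r * (r' * x))) < cs.length x ∧ x = t2 * (t1 * (r * (r' * x)))) ∨
    (0 < orderOf (a * b) ∧ ∃ k : ℤ, |k| = orderOf (a * b) ∧ r = E a b k ∧ k % 2 = 1) := by
  have haa := H.aR.mul_self
  have hbb := H.bR.mul_self
  obtain ⟨p0, y, hx0, h3, h4⟩ := H.exists_rep x
  obtain ⟨p, hp, hpE, _⟩ := H.exists_norm p0
  rw [← hpE] at hx0
  obtain ⟨j, hj⟩ := H.mem_form hr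
  obtain ⟨j', hj'⟩ := H.mem_form hr'
  obtain ⟨q, hq, hqE, hqpar⟩ := H.exists_norm (2 * j + 1 - (2 * j' + 1 - p))
  have hz0 : r * (r' * x) = E a b q * y := by
    rw [hqE, hj, hj', hx0, ← mul_assoc, ← mul_assoc, mul_assoc (E a b (2 * j + 1)), E_mul_odd haa hbb,
      E_mul_odd haa hbb]
  have hpq : (q - p) % 2 = 0 := by omega
  rcases lt_trichotomy |q| |p| with hlt | heq | hgt
  · -- intermediate element
    left
    have hp0 : p ≠ 0 := by rintro rfl; simp at hlt; have := abs_nonneg q; omega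
    obtain ⟨m, hm1, hm2⟩ : ∃ m : ℤ, |m| + 1 = |p| ∧ (p - m) % 2 = 1 := by
      rcases lt_or_gt_of_ne hp0 with h | h
      · refine ⟨p + 1, ?_, by omega⟩
        rw [abs_of_neg h, abs_of_nonpos (by omega)]; ring
      · refine ⟨p - 1, ?_, by omega⟩
        rw [abs_of_pos h, abs_of_nonneg (by omega)]; ring
    have hpm : |q| < |m| := by
      have h1 : |q| ≤ |m| := by omega
      rcases lt_or_eq_of_le h1 with h2 | h2
      · exact h2
      · exfalso
        rcases abs_eq_abs.mp h2 with h5 | h5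
        · omega
        · omega
    have l1 := H.mono h3 h4 hpm (by omega)
    have l2 := H.mono h3 h4 (by omega : |m| < |p|) hp
    rw [← hz0] at l1
    rw [← hx0] at l2
    obtain ⟨i, hi⟩ : ∃ i : ℤ, m + q = 2 * i + 1 := ⟨(m + q) / 2, by omega⟩
    obtain ⟨i', hi'⟩ : ∃ i' : ℤ, p + m = 2 * i' + 1 := ⟨(p + m) / 2, by omega⟩
    have e1 : E a b (2 * i + 1) * (r * (r' * x)) = E a b m * y := by
      rw [hz0, ← mul_assoc, E_mul_odd haa hbb]
      congr 2; linarith
    have e2 : E a b (2 * i' + 1) * (E a b m * y) = x := by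
      rw [← mul_assoc, E_mul_odd haa hbb, hx0]
      congr 2; linarith
    refine ⟨E a b (2 * i + 1), E a b (2 * i' + 1), isReflection_E H.aR H.bR _,
      isReflection_E H.aR H.bR _, ?_, ?_, ?_⟩
    · rw [e1]; exact l1
    · rw [e1]; exact l2
    · rw [e1, e2]
  · right
    have hne : q ≠ p := by
      rintro rfl
      rw [hz0, ← hx0] at hz; omega
    have hqp : q = -p := by
      rcases abs_eq_abs.mp heq with h | h
      · exact absurd h hne
      · exact h
    have hp0 : p ≠ 0 := by rintro rfl; apply hne; rw [hqp]; ring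
    -- the two lengths
    have hrx : r * x = E a b (2 * j + 1 - p) * y := by
      rw [hj, hx0, ← mul_assoc, E_mul_odd haa hbb]
    have hr'x : r' * x = E a b (2 * j + 1 - q) * y := by
      have : r' * x = r * (r * (r' * x)) := by
        rw [← mul_assoc r r, (H.refl r hr).mul_self, one_mul]
      rw [this, hz0, hj, ← mul_assoc, E_mul_odd haa hbb]
    rw [hrx, hr'x, hqp] at hlen
    by_cases hN : orderOf (a * b) = 0
    · exfalso
      have := H.len_eq h3 h4 (Or.inl hN) (Or.inl hN) hlen
      rcases abs_eq_abs.mp this with h | h <;> omega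
    · have hN0 : 0 < orderOf (a * b) := Nat.pos_of_ne_zero hN
      refine ⟨hN0, ?_⟩
      obtain ⟨h, h1, h2, m0, h3'⟩ := exists_small a b (2 * j + 1) hN0
      have hpN : |p| < orderOf (a * b) := by
        have h5 : |p| ≤ orderOf (a * b) := by omega
        rcases lt_or_eq_of_le h5 with h6 | h6
        · exact h6
        · exfalso
          -- E p = E q
          have h7 : E a b q = E a b p := by
            have h8 : p = (orderOf (a * b) : ℤ) ∨ p = -(orderOf (a * b) : ℤ) := by
              rcases abs_cases p with h9 | h9 <;> omega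
            rcases h8 with h8 | h8
            · have := E_period a b q 1
              rw [← this]; congr 1; rw [hqp]; omega
            · have := E_period a b p 1
              rw [← this]; congr 1; rw [hqp]; omega
          rw [hz0, h7, ← hx0] at hz; omega
      set N : ℤ := (orderOf (a * b) : ℤ) with hNdef
      have g1 : E a b (2 * j + 1 - p) = E a b (h - p) := by
        have := E_period a b (2 * j + 1 - p) m0
        rw [← this]; congr 1; rw [h3']; ring
      have g2 : E a b (2 * j + 1 - -p) = E a b (h + p) := by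
        have := E_period a b (2 * j + 1 - -p) m0
        rw [← this]; congr 1; rw [h3']; ring
      rw [g1, g2] at hlen
      refine ⟨h, ?_, by rw [h2]; exact hj, ?_⟩
      · by_contra hcon
        have hhN : |h| < N := lt_of_le_of_ne h1 hcon
        have hh0 : h ≠ 0 := by
          intro h0
          have h6 : h = 2 * j + 1 + 2 * N * m0 := h3'
          have h7 : 2 * N * m0 = 2 * (N * m0) := by ring
          omega
        -- normalise h - p and h + p
        have norm : ∀ s : ℤ, |s| < 2 * N → ∃ s' : ℤ, |s'| ≤ N ∧ E a b s' = E a b s ∧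
            ((|s| ≤ N ∧ s' = s) ∨ (N < s ∧ s' = s - 2 * N) ∨ (s < -N ∧ s' = s + 2 * N)) := by
          intro s hs
          by_cases c1 : |s| ≤ N
          · exact ⟨s, c1, rfl, Or.inl ⟨c1, rfl⟩⟩
          · by_cases c2 : 0 ≤ s
            · rw [abs_of_nonneg c2] at hs c1
              refine ⟨s - 2 * N, ?_, ?_, Or.inr (Or.inl ⟨by omega, rfl⟩)⟩
              · rw [abs_of_neg (by omega)]; omega
              · have := E_period a b (s - 2 * N) 1
                rw [← this]; congr 1; ring
            · rw [abs_of_neg (by omega)] at hs c1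
              refine ⟨s + 2 * N, ?_, ?_, Or.inr (Or.inr ⟨by omega, rfl⟩)⟩
              · rw [abs_of_nonneg (by omega)]; omega
              · have := E_period a b s 1
                rw [← this]; congr 1; ring
        have b1 : |h - p| < 2 * N := by
          have := abs_sub h p; omega
        have b2 : |h + p| < 2 * N := by
          have := abs_add_le h p; omega
        obtain ⟨s, s1, s2, s3⟩ := norm _ b1
        obtain ⟨s', s1', s2', s3'⟩ := norm _ b2
        rw [← s2, ← s2'] at hlen
        have h8 := H.len_eq h3 h4 (Or.inr s1) (Or.inr s1') hlen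
        rw [abs_lt] at hhN hpN
        rcases abs_eq_abs.mp h8 with h9 | h9 <;> rcases s3 with ⟨u, v⟩ | ⟨u, v⟩ | ⟨u, v⟩ <;>
          rcases s3' with ⟨u', v'⟩ | ⟨u', v'⟩ | ⟨u', v'⟩ <;> omega
      · rw [h3']
        have h7 : 2 * N * m0 = 2 * (N * m0) := by ring
        omega
  · exfalso
    have := H.mono h3 h4 hgt hq
    rw [← hz0, ← hx0] at this
    omega


end CanPair

/-- Strong exchange for twisted involutions. -/
theorem core_exch (θ : W ≃* W) (hlen : ∀ g, cs.length (θ g) = cs.length g)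
    (hrefl : ∀ t, cs.IsReflection t → cs.IsReflection (θ t))
    (x : W) (hx : x * θ x = 1) (hθ : ∀ g, θ (θ g) = g)
    (hQ : ∀ u r, cs.IsReflection r → cs.length (r * (u * x * (θ u)⁻¹) * θ r) = cs.length (u * x * (θ u)⁻¹) →
      r * (u * x * (θ u)⁻¹) * θ r = u * x * (θ u)⁻¹)
    {r : W} (hr : cs.IsReflection r) (h1 : cs.length (r * x * θ r) < cs.length x) :
    ∃ t1 t2, cs.IsReflection t1 ∧ cs.IsReflection t2 ∧
      cs.length (r * x * θ r) < cs.length (t1 * (r * x * θ r)) ∧
      cs.length (t1 * (r * x * θ r)) < cs.length x ∧ x = t2 * (t1 * (r * x * θ r)) := by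
  set r' := x * θ r * x⁻¹ with hr'def
  have hr' : cs.IsReflection r' := (hrefl r hr).conj x
  have hz : r * x * θ r = r * (r' * x) := by rw [hr'def]; group
  have hlr : cs.length (r * x) = cs.length (r' * x) := by
    have e1 : r' * x = x * θ r := by rw [hr'def]; group
    have e2 : x⁻¹ = θ x := inv_eq_of_mul_eq_one_right hx
    rw [e1, ← cs.length_inv (x * θ r), mul_inv_rev, e2, ← map_inv, ← map_mul, hlen, hr.inv]
  rw [hz] at h1 ⊢
  set z := r * (r' * x) with hzdef
  have hne : r' ≠ r := by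
    intro h
    have : z = x := by rw [hzdef, h, ← mul_assoc, hr.mul_self, one_mul]
    rw [this] at h1; omega
  obtain ⟨a, b, H⟩ := exists_canPair hr hr' hne
  have hrD : r ∈ DP cs r r' := ⟨hr, Submodule.subset_span (by simp)⟩
  have hr'D : r' ∈ DP cs r r' := ⟨hr', Submodule.subset_span (by simp)⟩
  rcases H.stepC x hrD hr'D h1 hlr with h | ⟨hN, k0, hk0, hrk, hodd0⟩
  · exact h
  · exfalso
    have hfull : ∀ t, cs.IsReflection t → rt cs t ∈ Submodule.span ℝ {rt cs a, rt cs b} →
        t ∈ DP cs r r' := by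
      intro t ht h
      refine ⟨ht, ?_⟩
      have hsub : Submodule.span ℝ {rt cs a, rt cs b} ≤ Submodule.span ℝ {rt cs r, rt cs r'} := by
        rw [Submodule.span_le]
        rintro v (rfl | hv)
        · exact H.ha.2
        · rw [Set.mem_singleton_iff.mp hv]; exact H.hb.2
      exact hsub h
    obtain ⟨g, i', j', hij', ha, hb, hga, hgb⟩ := H.exists_parabolic hfull hN
    have H' := H.transfer g⁻¹ hga hgb
    have ea : g⁻¹ * a * g⁻¹⁻¹ = cs.simple i' := by rw [ha]; group
    have eb : g⁻¹ * b * g⁻¹⁻¹ = cs.simple j' := by rw [hb]; group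
    have eord : orderOf (g⁻¹ * a * g⁻¹⁻¹ * (g⁻¹ * b * g⁻¹⁻¹)) = orderOf (a * b) := by
      have e : g⁻¹ * a * g⁻¹⁻¹ * (g⁻¹ * b * g⁻¹⁻¹) = MulAut.conj g⁻¹ (a * b) := by
        rw [MulAut.conj_apply]; group
      rw [e]
      exact orderOf_injective (MulAut.conj g⁻¹).toMonoidHom (MulAut.conj g⁻¹).injective _
    set x' := g⁻¹ * x * (θ g⁻¹)⁻¹ with hx'
    set ρ := g⁻¹ * r * g⁻¹⁻¹ with hρ
    set ρ' := g⁻¹ * r' * g⁻¹⁻¹ with hρ'
    have hρr : cs.IsReflection ρ := hr.conj g⁻¹
    have hρ'x : ρ' * x' = x' * θ ρ := by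
      rw [hρ', hx', hρ, hr'def]
      simp only [map_mul, map_inv]
      group
    have hx'1 : x' * θ x' = 1 := by
      rw [hx']
      simp only [map_mul, map_inv, hθ]
      calc g⁻¹ * x * (θ g)⁻¹⁻¹ * ((θ g)⁻¹ * θ x * g⁻¹⁻¹) = g⁻¹ * (x * θ x) * g := by group
        _ = 1 := by rw [hx]; group
    have hlρ : cs.length (ρ * x') = cs.length (ρ' * x') := by
      have e2 : x'⁻¹ = θ x' := inv_eq_of_mul_eq_one_right hx'1
      rw [hρ'x, ← cs.length_inv (x' * θ ρ), mul_inv_rev, e2, ← map_inv, ← map_mul, hlen, hρr.inv]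
    have hfin := H'.parabolic_case ea eb (by rw [eord]; exact hN) x' (r := ρ) (r' := ρ')
      ⟨r, hrD, rfl⟩ ⟨r', hr'D, rfl⟩ (k0 := k0) (by rw [eord]; exact hk0) hodd0
      (by rw [E_conj, ← hrk]) hlρ
    have e3 : ρ * (ρ' * x') = ρ * x' * θ ρ := by rw [hρ'x]; exact (mul_assoc _ _ _).symm
    rw [e3] at hfin
    have h5 := hQ g⁻¹ ρ hρr hfin
    rw [← e3] at h5
    have h6 : z = x := by
      have e4 : ρ * (ρ' * x') = g⁻¹ * z * (θ g⁻¹)⁻¹ := by
        rw [hρ, hρ', hx', hzdef]; group
      rw [e4] at h5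
      have h7 : g⁻¹ * z * (θ g⁻¹)⁻¹ = g⁻¹ * x * (θ g⁻¹)⁻¹ := h5
      exact mul_left_cancel (mul_right_cancel h7)
    rw [h6] at h1; omega


end Pool.Agent.V1121.QG
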