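import Pool.Agent.V1121.QG.Can

set_option autoImplicit false

namespace Pool.Agent.V1121.QG

open CoxeterSystem

variable {B : Type*} {M : CoxeterMatrix B}
variable {W : Type*} [Group W]
variable {cs : CoxeterSystem M W} {a b : W} {D : Set W}

namespace CanPair

variable (H : CanPair cs a b D)
include H

lemma conj_closure {g : W} (hg : g ∈ Subgroup.closure ({a, b} : Set W)) :
    ∀ u ∈ D, g * u * g⁻¹ ∈ D := by
  have h : ∀ u ∈ D, g * u * g⁻¹ ∈ D ∧ g⁻¹ * u * g ∈ D := by
    induction hg using Subgroup.closure_induction with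
    | mem x hx =>
      intro u hu
      have hx' : x ∈ D := by
        rcases hx with rfl | hx
        · exact H.ha
        · rw [Set.mem_singleton_iff.mp hx]; exact H.hb
      have h1 := H.conj x hx' u hu
      refine ⟨h1, ?_⟩
      have h2 : x⁻¹ = x := (H.refl x hx').inv
      rw [h2] at h1 ⊢
      exact h1
    | one => intro u hu; simpa using hu
    | mul x y _ _ hx hy =>
      intro u hu
      constructor
      · have := (hx _ (hy u hu).1).1
        have e : x * y * u * (x * y)⁻¹ = x * (y * u * y⁻¹) * x⁻¹ := by group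
        rw [e]; exact this
      · have := (hy _ (hx u hu).2).2
        have e : (x * y)⁻¹ * u * (x * y) = y⁻¹ * (x⁻¹ * u * x) * y := by group
        rw [e]; exact this
    | inv x _ hx =>
      intro u hu
      exact ⟨by simpa using (hx u hu).2, by simpa using (hx u hu).1⟩
  exact fun u hu => (h u hu).1

lemma a_mem : a ∈ Subgroup.closure ({a, b} : Set W) := Subgroup.subset_closure (by simp)
lemma b_mem : b ∈ Subgroup.closure ({a, b} : Set W) := Subgroup.subset_closure (by simp)

omit H in
lemma E_mem (a b : W) (k : ℤ) : E a b k ∈ Subgroup.closure ({a, b} : Set W) := by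
  have ha : a ∈ Subgroup.closure ({a, b} : Set W) := Subgroup.subset_closure (by simp)
  have hb : b ∈ Subgroup.closure ({a, b} : Set W) := Subgroup.subset_closure (by simp)
  rcases Int.even_or_odd' k with ⟨m, rfl | rfl⟩
  · rw [E_even]; exact Subgroup.zpow_mem _ (Subgroup.mul_mem _ ha hb) _
  · rw [E_odd]; exact Subgroup.mul_mem _ (Subgroup.zpow_mem _ (Subgroup.mul_mem _ ha hb) _) ha

lemma memD (j : ℤ) : E a b (2 * j + 1) ∈ D := by
  have haa := H.aR.mul_self
  have hbb := H.bR.mul_self
  have ai := H.aR.inv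
  rcases Int.even_or_odd' j with ⟨m, rfl | rfl⟩
  · have h := H.conj_closure (E_mem a b (2 * m)) a H.ha
    have e : E a b (2 * m) * a * (E a b (2 * m))⁻¹ = E a b (2 * (2 * m) + 1) := by
      rw [mul_inv_eq_iff_eq_mul, E_mul_odd haa hbb]
      have e2 : 2 * (2 * m) + 1 - 2 * m = 2 * m + 1 := by ring
      rw [e2, E_even, E_odd]
    rwa [e] at h
  · have h0 := H.conj a H.ha b H.hb
    have h := H.conj_closure (E_mem a b (2 * m)) _ h0
    have e : E a b (2 * m) * (a * b * a⁻¹) * (E a b (2 * m))⁻¹ = E a b (2 * (2 * m + 1) + 1) := by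
      rw [mul_inv_eq_iff_eq_mul, E_mul_odd haa hbb]
      have e2 : 2 * (2 * m + 1) + 1 - 2 * m = 2 * (m + 1) + 1 := by ring
      rw [e2, E_even, E_odd, ai, zpow_add_one]
      simp only [mul_assoc]
    rwa [e] at h

lemma mono_odd {y : W} (h3 : 0 ≤ geo cs y⁻¹ (rt cs a)) (h4 : 0 ≤ geo cs y⁻¹ (rt cs b)) {k k' : ℤ}
    (hlt : |k| < |k'|) (hle : orderOf (a * b) = 0 ∨ |k'| ≤ orderOf (a * b)) (hpar : (k' - k) % 2 = 1) :
    cs.length (E a b k * y) < cs.length (E a b k' * y) := by
  have haa := H.aR.mul_self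
  have hbb := H.bR.mul_self
  obtain ⟨j, hj⟩ : ∃ j : ℤ, k' + k = 2 * j + 1 := ⟨(k' + k) / 2, by omega⟩
  have ht := H.memD j
  have e : E a b (2 * j + 1) * E a b k = E a b k' := by
    rw [E_mul_odd haa hbb]; congr 1; linarith
  by_contra hcon
  have hne := (H.refl _ ht).length_mul_right_ne (E a b k * y)
  have hlt2 : cs.length (E a b (2 * j + 1) * (E a b k * y)) < cs.length (E a b k * y) := by
    have : E a b (2 * j + 1) * (E a b k * y) = E a b k' * y := by rw [← mul_assoc, e]
    rw [this] at hne ⊢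
    omega
  obtain ⟨k'', h5, h6⟩ := H.exch' h3 h4 k ht hlt2
  rw [e] at h6
  have h7 := E_inj (cs := cs) H.aR H.bR h6
  obtain ⟨c, hc⟩ := h7
  have hne' : k' - k'' ≠ 0 := by
    intro h0
    have : k' = k'' := by linarith
    rw [this] at hlt; omega
  rcases hle with h8 | h8
  · rw [h8] at hc; simp at hc; exact hne' hc
  · set N : ℤ := (orderOf (a * b) : ℤ) with hN
    have hc0 : c ≠ 0 := by rintro rfl; simp at hc; exact hne' hc
    have h9 : |k' - k''| ≤ |k'| + |k''| := abs_sub _ _
    have hN0 : 0 < N := by have := abs_nonneg k; omega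
    have h10 : 2 * N ≤ |k' - k''| := by
      rw [hc, abs_mul, abs_of_pos (by omega : 0 < 2 * N)]
      have : 1 ≤ |c| := Int.one_le_abs hc0
      nlinarith
    omega

lemma mono {y : W} (h3 : 0 ≤ geo cs y⁻¹ (rt cs a)) (h4 : 0 ≤ geo cs y⁻¹ (rt cs b)) {k k' : ℤ}
    (hlt : |k| < |k'|) (hle : orderOf (a * b) = 0 ∨ |k'| ≤ orderOf (a * b)) :
    cs.length (E a b k * y) < cs.length (E a b k' * y) := by
  by_cases hpar : (k' - k) % 2 = 1
  · exact H.mono_odd h3 h4 hlt hle hpar
  · have hk0 : k' ≠ 0 := by rintro rfl; simp at hlt; have := abs_nonneg k; omega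
    obtain ⟨m, hm1, hm2⟩ : ∃ m : ℤ, |m| + 1 = |k'| ∧ (k' - m) % 2 = 1 := by
      rcases lt_or_gt_of_ne hk0 with h | h
      · refine ⟨k' + 1, ?_, by omega⟩
        rw [abs_of_neg h, abs_of_nonpos (by omega)]; ring
      · refine ⟨k' - 1, ?_, by omega⟩
        rw [abs_of_pos h, abs_of_nonneg (by omega)]; ring
    have hkm : |k| < |m| := by
      have h1 : |k| ≤ |m| := by omega
      rcases lt_or_eq_of_le h1 with h2 | h2
      · exact h2
      · exfalso
        rcases abs_eq_abs.mp h2 with h5 | h5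
        · omega
        · omega
    exact (H.mono_odd h3 h4 hkm (by omega) (by omega)).trans (H.mono_odd h3 h4 (by omega) hle hm2)

lemma exists_norm (k : ℤ) : ∃ k' : ℤ, (orderOf (a * b) = 0 ∨ |k'| ≤ orderOf (a * b)) ∧
    E a b k' = E a b k ∧ (k' - k) % 2 = 0 := by
  by_cases hN : orderOf (a * b) = 0
  · exact ⟨k, Or.inl hN, rfl, by simp⟩
  · obtain ⟨k', h1, h2, m, h3⟩ := exists_small a b k (Nat.pos_of_ne_zero hN)
    refine ⟨k', Or.inr h1, h2, ?_⟩
    rw [h3]
    have : k + 2 * (orderOf (a * b) : ℤ) * m - k = 2 * ((orderOf (a * b) : ℤ) * m) := by ring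
    rw [this]; omega

lemma len_eq {y : W} (h3 : 0 ≤ geo cs y⁻¹ (rt cs a)) (h4 : 0 ≤ geo cs y⁻¹ (rt cs b)) {k k' : ℤ}
    (hk : orderOf (a * b) = 0 ∨ |k| ≤ orderOf (a * b)) (hk' : orderOf (a * b) = 0 ∨ |k'| ≤ orderOf (a * b))
    (h : cs.length (E a b k * y) = cs.length (E a b k' * y)) : |k| = |k'| := by
  rcases lt_trichotomy |k| |k'| with h1 | h1 | h1
  · have := H.mono h3 h4 h1 hk'; omega
  · exact h1
  · have := H.mono h3 h4 h1 hk; omega

/-- the level comparison -/
lemma stepB (x : W) {r r' : W} (hr : r ∈ D) (hr' : r' ∈ D) (hz : cs.length (r * (r' * x)) = cs.length x + 2)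
    (hlen : cs.length (r * x) = cs.length (r' * x)) :
    (∃ t1 t2, cs.IsReflection t1 ∧ cs.IsReflection t2 ∧ cs.length (t1 * x) = cs.length x + 1 ∧
      r * (r' * x) = t2 * (t1 * x)) ∨
    (0 < orderOf (a * b) ∧ ∃ k : ℤ, |k| = orderOf (a * b) ∧ r = E a b k ∧ k % 2 = 1) := by
  have haa := H.aR.mul_self
  have hbb := H.bR.mul_self
  obtain ⟨p0, y, hx0, h3, h4⟩ := H.exists_rep x
  obtain ⟨p, hp, hpE, _⟩ := H.exists_norm p0
  rw [← hpE] at hx0
  obtain ⟨j, hj⟩ := H.mem_form hr
  obtain ⟨j', hj'⟩ := H.mem_form hr'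
  obtain ⟨q, hq, hqE, hqpar⟩ := H.exists_norm (2 * j + 1 - (2 * j' + 1 - p))
  have hz0 : r * (r' * x) = E a b q * y := by
    rw [hqE, hj, hj', hx0, ← mul_assoc, ← mul_assoc, mul_assoc (E a b (2 * j + 1)), E_mul_odd haa hbb,
      E_mul_odd haa hbb]
  have hpq : (q - p) % 2 = 0 := by omega
  rcases lt_trichotomy |p| |q| with hlt | heq | hgt
  · -- intermediate element
    left
    have hq0 : q ≠ 0 := by rintro rfl; simp at hlt; have := abs_nonneg p; omega
    obtain ⟨m, hm1, hm2⟩ : ∃ m : ℤ, |m| + 1 = |q| ∧ (q - m) % 2 = 1 := by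
      rcases lt_or_gt_of_ne hq0 with h | h
      · refine ⟨q + 1, ?_, by omega⟩
        rw [abs_of_neg h, abs_of_nonpos (by omega)]; ring
      · refine ⟨q - 1, ?_, by omega⟩
        rw [abs_of_pos h, abs_of_nonneg (by omega)]; ring
    have hpm : |p| < |m| := by
      have h1 : |p| ≤ |m| := by omega
      rcases lt_or_eq_of_le h1 with h2 | h2
      · exact h2
      · exfalso
        rcases abs_eq_abs.mp h2 with h5 | h5
        · omega
        · omega
    have l1 := H.mono h3 h4 hpm (by omega)
    have l2 := H.mono h3 h4 (by omega : |m| < |q|) hq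
    rw [hz0] at hz
    rw [← hx0] at l1
    obtain ⟨i, hi⟩ : ∃ i : ℤ, m + p = 2 * i + 1 := ⟨(m + p) / 2, by omega⟩
    obtain ⟨i', hi'⟩ : ∃ i' : ℤ, q + m = 2 * i' + 1 := ⟨(q + m) / 2, by omega⟩
    have e1 : E a b (2 * i + 1) * x = E a b m * y := by
      rw [hx0, ← mul_assoc, E_mul_odd haa hbb]
      congr 2; linarith
    have e2 : E a b (2 * i' + 1) * (E a b m * y) = E a b q * y := by
      rw [← mul_assoc, E_mul_odd haa hbb]
      congr 2; linarith
    refine ⟨E a b (2 * i + 1), E a b (2 * i' + 1), isReflection_E H.aR H.bR _,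
      isReflection_E H.aR H.bR _, ?_, ?_⟩
    · rw [e1]; omega
    · rw [e1, e2, hz0]
  · right
    have hne : q ≠ p := by
      rintro rfl
      rw [hz0, ← hx0] at hz; omega
    have hqp : q = -p := by
      rcases abs_eq_abs.mp heq with h | h
      · exact absurd h.symm hne
      · rw [h]; ring
    have hp0 : p ≠ 0 := by rintro rfl; apply hne; rw [hqp]; ring
    -- the two lengths
    have hrx : r * x = E a b (2 * j + 1 - p) * y := by
      rw [hj, hx0, ← mul_assoc, E_mul_odd haa hbb]
    have hr'x : r' * x = E a b (2 * j + 1 - q) * y := by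
      have : r' * x = r * (r * (r' * x)) := by
        rw [← mul_assoc r r, (H.refl r hr).mul_self, one_mul]
      rw [this, hz0, hj, ← mul_assoc, E_mul_odd haa hbb]
    rw [hrx, hr'x, hqp] at hlen
    by_cases hN : orderOf (a * b) = 0
    · exfalso
      have := H.len_eq h3 h4 (Or.inl hN) (Or.inl hN) hlen
      rcases abs_eq_abs.mp this with h | h <;> omega
    · have hN0 : 0 < orderOf (a * b) := Nat.pos_of_ne_zero hN
      refine ⟨hN0, ?_⟩
      obtain ⟨h, h1, h2, m0, h3'⟩ := exists_small a b (2 * j + 1) hN0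
      have hpN : |p| < orderOf (a * b) := by
        have h5 : |p| ≤ orderOf (a * b) := by omega
        rcases lt_or_eq_of_le h5 with h6 | h6
        · exact h6
        · exfalso
          -- E p = E q
          have h7 : E a b q = E a b p := by
            have h8 : p = (orderOf (a * b) : ℤ) ∨ p = -(orderOf (a * b) : ℤ) := by
              rcases abs_cases p with h9 | h9 <;> omega
            rcases h8 with h8 | h8
            · have := E_period a b q 1
              rw [← this]; congr 1; rw [hqp]; omega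
            · have := E_period a b p 1
              rw [← this]; congr 1; rw [hqp]; omega
          rw [hz0, h7, ← hx0] at hz; omega
      set N : ℤ := (orderOf (a * b) : ℤ) with hNdef
      have g1 : E a b (2 * j + 1 - p) = E a b (h - p) := by
        have := E_period a b (2 * j + 1 - p) m0
        rw [← this]; congr 1; rw [h3']; ring
      have g2 : E a b (2 * j + 1 - -p) = E a b (h + p) := by
        have := E_period a b (2 * j + 1 - -p) m0
        rw [← this]; congr 1; rw [h3']; ring
      rw [g1, g2] at hlen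
      refine ⟨h, ?_, by rw [h2]; exact hj, ?_⟩
      · by_contra hcon
        have hhN : |h| < N := lt_of_le_of_ne h1 hcon
        have hh0 : h ≠ 0 := by
          intro h0
          have h6 : h = 2 * j + 1 + 2 * N * m0 := h3'
          have h7 : 2 * N * m0 = 2 * (N * m0) := by ring
          omega
        -- normalise h - p and h + p
        have norm : ∀ s : ℤ, |s| < 2 * N → ∃ s' : ℤ, |s'| ≤ N ∧ E a b s' = E a b s ∧
            ((|s| ≤ N ∧ s' = s) ∨ (N < s ∧ s' = s - 2 * N) ∨ (s < -N ∧ s' = s + 2 * N)) := by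
          intro s hs
          by_cases c1 : |s| ≤ N
          · exact ⟨s, c1, rfl, Or.inl ⟨c1, rfl⟩⟩
          · by_cases c2 : 0 ≤ s
            · rw [abs_of_nonneg c2] at hs c1
              refine ⟨s - 2 * N, ?_, ?_, Or.inr (Or.inl ⟨by omega, rfl⟩)⟩
              · rw [abs_of_neg (by omega)]; omega
              · have := E_period a b (s - 2 * N) 1
                rw [← this]; congr 1; ring
            · rw [abs_of_neg (by omega)] at hs c1
              refine ⟨s + 2 * N, ?_, ?_, Or.inr (Or.inr ⟨by omega, rfl⟩)⟩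
              · rw [abs_of_nonneg (by omega)]; omega
              · have := E_period a b s 1
                rw [← this]; congr 1; ring
        have b1 : |h - p| < 2 * N := by
          have := abs_sub h p; omega
        have b2 : |h + p| < 2 * N := by
          have := abs_add_le h p; omega
        obtain ⟨s, s1, s2, s3⟩ := norm _ b1
        obtain ⟨s', s1', s2', s3'⟩ := norm _ b2
        rw [← s2, ← s2'] at hlen
        have h8 := H.len_eq h3 h4 (Or.inr s1) (Or.inr s1') hlen
        rw [abs_lt] at hhN hpN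
        rcases abs_eq_abs.mp h8 with h9 | h9 <;> rcases s3 with ⟨u, v⟩ | ⟨u, v⟩ | ⟨u, v⟩ <;>
          rcases s3' with ⟨u', v'⟩ | ⟨u', v'⟩ | ⟨u', v'⟩ <;> omega
      · rw [h3']
        have h7 : 2 * N * m0 = 2 * (N * m0) := by ring
        omega
  · exfalso
    have := H.mono h3 h4 hgt hp
    rw [← hz0, ← hx0] at this
    omega

end CanPair

end Pool.Agent.V1121.QG
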