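import Pool.Agent.V1121.QG.Pln

set_option autoImplicit false

namespace Pool.Agent.V1121.QG

open CoxeterSystem

variable {B : Type*} {M : CoxeterMatrix B}
variable {W : Type*} [Group W]
variable {cs : CoxeterSystem M W} {a b : W} {D : Set W}

section lin

lemma lin_expand (l : (B →₀ ℝ) →ₗ[ℝ] ℝ) (v : B →₀ ℝ) : l v = ∑ i ∈ v.support, v i * l (ee i) := by
  have h : v = ∑ i ∈ v.support, v i • (ee i : B →₀ ℝ) := by
    conv_lhs => rw [← Finsupp.sum_single v]
    rw [Finsupp.sum]
    apply Finset.sum_congr rfl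
    intro i _
    rw [ee, Finsupp.smul_single, smul_eq_mul, mul_one]
  conv_lhs => rw [h]
  rw [map_sum]
  apply Finset.sum_congr rfl
  intro i _
  rw [map_smul, smul_eq_mul]

lemma lin_pos {l : (B →₀ ℝ) →ₗ[ℝ] ℝ} (hl : ∀ i, 0 < l (ee i)) {v : B →₀ ℝ} (hv : 0 ≤ v) (h0 : v ≠ 0) :
    0 < l v := by
  rw [lin_expand]
  apply Finset.sum_pos
  · intro i hi
    apply mul_pos _ (hl i)
    exact lt_of_le_of_ne (hv i) (Ne.symm (Finsupp.mem_support_iff.mp hi))
  · exact Finsupp.support_nonempty_iff.mpr h0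

lemma exists_generic (F : Finset (B →₀ ℝ)) (hF : ∀ q ∈ F, q ≠ 0) :
    ∃ l : (B →₀ ℝ) →ₗ[ℝ] ℝ, (∀ i, 0 < l (ee i)) ∧ ∀ q ∈ F, l q ≠ 0 := by
  classical
  induction F using Finset.induction_on with
  | empty =>
    exact ⟨Finsupp.linearCombination ℝ (fun _ => (1 : ℝ)), by intro i; simp [ee], by simp⟩
  | insert q F hq ih =>
    obtain ⟨l, h1, h2⟩ := ih (fun q' hq' => hF q' (Finset.mem_insert_of_mem hq'))
    have hq0 := hF q (Finset.mem_insert_self q F)
    obtain ⟨i, hi⟩ := Finsupp.support_nonempty_iff.mpr hq0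
    have hi' : q i ≠ 0 := Finsupp.mem_support_iff.mp hi
    -- bad values
    set bad : Finset ℝ := (insert q F).image (fun q' => - l q' / q' i) with hbad
    obtain ⟨ε, hε, hεbad⟩ : ∃ ε : ℝ, 0 < ε ∧ ε ∉ bad := by
      have hinf : (Set.Ioi (0 : ℝ)).Infinite := Set.Ioi_infinite 0
      obtain ⟨ε, h3, h4⟩ := (hinf.sdiff bad.finite_toSet).nonempty
      exact ⟨ε, h3, by simpa using h4⟩
    refine ⟨l + ε • Finsupp.lapply i, ?_, ?_⟩
    · intro j
      rw [LinearMap.add_apply, LinearMap.smul_apply, Finsupp.lapply_apply, smul_eq_mul]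
      have : 0 ≤ (ee j : B →₀ ℝ) i := ee_nonneg j i
      have := h1 j
      positivity
    · intro q' hq' h0
      rw [LinearMap.add_apply, LinearMap.smul_apply, Finsupp.lapply_apply, smul_eq_mul] at h0
      by_cases h5 : q' i = 0
      · rw [h5, mul_zero, add_zero] at h0
        rcases Finset.mem_insert.mp hq' with rfl | h6
        · exact hi' h5
        · exact h2 q' h6 h0
      · apply hεbad
        rw [hbad, Finset.mem_image]
        refine ⟨q', hq', ?_⟩
        rw [div_eq_iff h5]; linarith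

end lin

lemma mem_closure_E (haa : a * a = 1) (hbb : b * b = 1) {g : W}
    (hg : g ∈ Subgroup.closure ({a, b} : Set W)) : ∃ k : ℤ, g = E a b k := by
  induction hg using Subgroup.closure_induction with
  | mem x hx =>
    rcases hx with rfl | hx
    · exact ⟨1, (E_one _ _).symm⟩
    · rw [Set.mem_singleton_iff.mp hx]; exact ⟨-1, (E_neg_one hbb).symm⟩
  | one => exact ⟨0, by simp⟩
  | mul x y _ _ hx hy =>
    obtain ⟨k, rfl⟩ := hx
    obtain ⟨l, rfl⟩ := hy
    rcases Int.even_or_odd' k with ⟨m, rfl | rfl⟩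
    · exact ⟨_, E_mul_even _ _ _ _⟩
    · exact ⟨_, E_mul_odd haa hbb _ _⟩
  | inv x _ hx =>
    obtain ⟨k, rfl⟩ := hx
    obtain ⟨l, hl⟩ := E_div haa hbb 0 k
    exact ⟨l, by rw [← hl]; simp⟩

lemma closure_finite (haa : a * a = 1) (hbb : b * b = 1) (hN : 0 < orderOf (a * b)) :
    Finite (Subgroup.closure ({a, b} : Set W)) := by
  have hfin : Set.Finite ((Subgroup.closure ({a, b} : Set W) : Subgroup W) : Set W) := by
    apply Set.Finite.subset (((Set.finite_Icc (-(orderOf (a * b) : ℤ)) (orderOf (a * b))).image (E a b)))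
    intro g hg
    obtain ⟨k, rfl⟩ := mem_closure_E haa hbb hg
    obtain ⟨k', h1, h2, _⟩ := exists_small a b k hN
    exact ⟨k', by rw [Set.mem_Icc]; exact abs_le.mp h1, h2⟩
  exact hfin

namespace CanPair

/-- the averaging operator -/
noncomputable def avg (cs : CoxeterSystem M W) (K : Subgroup W) [Fintype K] : Module.End ℝ (B →₀ ℝ) :=
  ∑ d : K, geo cs (d : W)

lemma avg_apply (K : Subgroup W) [Fintype K] (v : B →₀ ℝ) :
    avg cs K v = ∑ d : K, geo cs (d : W) v := by
  simp [avg, LinearMap.sum_apply]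

lemma avg_geo (K : Subgroup W) [Fintype K] {d : W} (hd : d ∈ K) (v : B →₀ ℝ) :
    avg cs K (geo cs d v) = avg cs K v := by
  rw [avg_apply, avg_apply]
  refine Fintype.sum_equiv (Equiv.mulRight (⟨d, hd⟩ : K)) _ _ ?_
  intro x
  rw [geo_geo]; rfl

lemma avg_rt (K : Subgroup W) [Fintype K] {t : W} (ht : cs.IsReflection t) (hd : t ∈ K) :
    avg cs K (rt cs t) = 0 := by
  have h := avg_geo (cs := cs) K hd (rt cs t)
  rw [geo_rt_self ht, map_neg] at h
  have h2 : (2 : ℝ) • avg cs K (rt cs t) = 0 := by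
    rw [two_smul]; nth_rewrite 1 [← h]; simp
  exact (smul_eq_zero.mp h2).resolve_left two_ne_zero

lemma sub_mem_span (har : cs.IsReflection a) (hbr : cs.IsReflection b) {d : W}
    (hd : d ∈ Subgroup.closure ({a, b} : Set W)) :
    ∀ v, geo cs d v - v ∈ Submodule.span ℝ {rt cs a, rt cs b} := by
  have hA : rt cs a ∈ Submodule.span ℝ {rt cs a, rt cs b} := Submodule.subset_span (by simp)
  have hB : rt cs b ∈ Submodule.span ℝ {rt cs a, rt cs b} := Submodule.subset_span (by simp)
  induction hd using Subgroup.closure_induction with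
  | mem x hx =>
    intro v
    rcases hx with rfl | hx
    · rw [geo_refl har, sub_sub_cancel_left]
      exact Submodule.neg_mem _ (Submodule.smul_mem _ _ hA)
    · rw [Set.mem_singleton_iff.mp hx, geo_refl hbr, sub_sub_cancel_left]
      exact Submodule.neg_mem _ (Submodule.smul_mem _ _ hB)
  | one => intro v; simp
  | mul x y _ _ hx hy =>
    intro v
    have e : geo cs (x * y) v - v = (geo cs x (geo cs y v) - geo cs y v) + (geo cs y v - v) := by
      rw [geo_geo]; abel
    rw [e]
    exact Submodule.add_mem _ (hx _) (hy _)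
  | inv x _ hx =>
    intro v
    have h := hx (geo cs x⁻¹ v)
    rw [geo_apply_inv] at h
    have e : geo cs x⁻¹ v - v = -(v - geo cs x⁻¹ v) := by abel
    rw [e]; exact Submodule.neg_mem _ h

lemma mem_span_of_avg (har : cs.IsReflection a) (hbr : cs.IsReflection b)
    (K : Subgroup W) [Fintype K] (hK : K = Subgroup.closure ({a, b} : Set W)) {v : B →₀ ℝ}
    (h : avg cs K v = 0) :
    v ∈ Submodule.span ℝ {rt cs a, rt cs b} := by
  have h1 : (Fintype.card K : ℝ) • v = - ∑ d : K, (geo cs (d : W) v - v) := by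
    rw [Finset.sum_sub_distrib, ← avg_apply, h, Finset.sum_const, Finset.card_univ, zero_sub, neg_neg]
    exact Nat.cast_smul_eq_nsmul ℝ _ _
  have hc : (Fintype.card K : ℝ) ≠ 0 := by
    exact_mod_cast Fintype.card_ne_zero
  have h2 : v = (Fintype.card K : ℝ)⁻¹ • ((Fintype.card K : ℝ) • v) := by
    rw [smul_smul, inv_mul_cancel₀ hc, one_smul]
  rw [h2, h1]
  apply Submodule.smul_mem
  apply Submodule.neg_mem
  apply Submodule.sum_mem
  intro d _
  exact sub_mem_span har hbr (hK ▸ d.2) v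

lemma exists_dominant (K : Subgroup W) [Fintype K] {l : (B →₀ ℝ) →ₗ[ℝ] ℝ} (hl : ∀ i, 0 < l (ee i)) (g : W) :
    ∃ g' : W, ∀ i, 0 ≤ l (avg cs K (geo cs g' (ee i))) := by
  -- the finite set measuring non-dominance
  have hfin : ∀ g : W, {β : B →₀ ℝ | PR cs β ∧ l (avg cs K (geo cs g β)) < 0}.Finite := by
    intro g
    apply Set.Finite.subset (Set.finite_iUnion (fun d : K => inv_finite (cs := cs) ((d : W) * g)))
    rintro β ⟨h1, h2⟩
    rw [Set.mem_iUnion]
    by_contra hcon
    push Not at hcon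
    have h3 : ∀ d : K, 0 ≤ geo cs ((d : W) * g) β := by
      intro d
      have h4 := hcon d
      by_contra h5
      apply h4
      exact ⟨h1, ((h1.root.geo _).not_nonneg).mp h5⟩
    have h6 : 0 ≤ l (avg cs K (geo cs g β)) := by
      rw [avg_apply, map_sum]
      apply Finset.sum_nonneg
      intro d _
      rw [geo_geo]
      exact (lin_pos hl (h3 d) (h1.root.geo _).ne_zero).le
    linarith
  induction hn : ({β : B →₀ ℝ | PR cs β ∧ l (avg cs K (geo cs g β)) < 0}).ncard
    using Nat.strong_induction_on generalizing g with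
  | _ n ih =>
  by_cases hdom : ∀ i, 0 ≤ l (avg cs K (geo cs g (ee i)))
  · exact ⟨g, hdom⟩
  push Not at hdom
  obtain ⟨i, hi⟩ := hdom
  refine ih _ ?_ (g * cs.simple i) rfl
  rw [← hn]
  have hsub : (fun β => geo cs (cs.simple i) β) '' {β : B →₀ ℝ | PR cs β ∧ l (avg cs K (geo cs (g * cs.simple i) β)) < 0} ⊆
      {β : B →₀ ℝ | PR cs β ∧ l (avg cs K (geo cs g β)) < 0} \ {ee i} := by
    rintro _ ⟨β, ⟨h1, h2⟩, rfl⟩
    have hne : β ≠ ee i := by
      rintro rfl
      rw [← geo_geo, geo_simple, sg_ee_self, map_neg, map_neg, map_neg] at h2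
      linarith
    have hpos : 0 ≤ geo cs (cs.simple i) β := by
      by_contra hcon
      exact hne (h1.eq_ee (((h1.root.geo _).not_nonneg).mp hcon))
    refine ⟨⟨⟨h1.root.geo _, hpos⟩, ?_⟩, ?_⟩
    · rw [geo_geo]; exact h2
    · intro h3
      have h3' : geo cs (cs.simple i) β = ee i := h3
      have h4 : β = - ee i := by
        have := congrArg (geo cs (cs.simple i)) h3'
        rw [geo_geo, cs.simple_mul_simple_self, map_one, Module.End.one_apply, geo_simple, sg_ee_self] at this
        exact this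
      have h5 := h1.pos
      rw [h4] at h5
      exact h1.root.not_both h1.pos (by rw [h4]; exact neg_nonpos.mpr (ee_nonneg i))
  have hinj : Set.InjOn (fun β => geo cs (cs.simple i) β)
      {β : B →₀ ℝ | PR cs β ∧ l (avg cs K (geo cs (g * cs.simple i) β)) < 0} := by
    intro β _ β' _ h
    exact geo_injective_apply cs _ h
  rw [← Set.InjOn.ncard_image hinj]
  apply Set.ncard_lt_ncard _ (hfin g)
  refine lt_of_le_of_lt hsub ?_
  exact Set.sdiff_singleton_ssubset.mpr ⟨PR_ee cs i, hi⟩

theorem exists_parabolic (H : CanPair cs a b D)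
    (hfull : ∀ t, cs.IsReflection t → rt cs t ∈ Submodule.span ℝ {rt cs a, rt cs b} → t ∈ D)
    (hN : 0 < orderOf (a * b)) :
    ∃ (g : W) (i j : B), i ≠ j ∧ a = g * cs.simple i * g⁻¹ ∧ b = g * cs.simple j * g⁻¹ ∧
      0 ≤ geo cs g⁻¹ (rt cs a) ∧ 0 ≤ geo cs g⁻¹ (rt cs b) := by
  classical
  have haa := H.aR.mul_self
  have hbb := H.bR.mul_self
  have : Finite (Subgroup.closure ({a, b} : Set W)) := closure_finite haa hbb hN
  let _ : Fintype (Subgroup.closure ({a, b} : Set W)) := Fintype.ofFinite _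
  set K := Subgroup.closure ({a, b} : Set W) with hK
  have haK : a ∈ K := Subgroup.subset_closure (by simp)
  have hbK : b ∈ K := Subgroup.subset_closure (by simp)
  have hF0 : {β : B →₀ ℝ | PR cs β ∧ ∃ d : K, geo cs (d : W) β ≤ 0}.Finite := by
    apply Set.Finite.subset (Set.finite_iUnion (fun d : K => inv_finite (cs := cs) (d : W)))
    rintro β ⟨h1, d, h2⟩
    rw [Set.mem_iUnion]
    exact ⟨d, h1, h2⟩
  set F : Finset (B →₀ ℝ) := ((hF0.toFinset).image (fun β => avg cs K β)).filter (fun q => q ≠ 0) with hF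
  obtain ⟨l, hl, hlF⟩ := exists_generic F (by
    intro q hq
    exact (Finset.mem_filter.mp hq).2)
  obtain ⟨g', hg'⟩ := exists_dominant (cs := cs) K hl 1
  obtain ⟨k, g, hgk, h3, h4⟩ := H.exists_rep g'
  have hEk : E a b k ∈ K := E_mem a b k
  have hdom : ∀ i, 0 ≤ l (avg cs K (geo cs g (ee i))) := by
    intro i
    have h := hg' i
    rw [hgk, ← geo_geo, avg_geo K hEk] at h
    exact h
  -- vanishing
  have hvan : ∀ β, PR cs β → l (avg cs K β) = 0 → ∃ t ∈ D, rt cs t = β := by
    intro β hβ h0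
    have hT : avg cs K β = 0 := by
      by_contra hne
      by_cases hd : ∃ d : K, geo cs (d : W) β ≤ 0
      · apply hlF (avg cs K β) _ h0
        rw [hF, Finset.mem_filter]
        refine ⟨Finset.mem_image_of_mem _ ?_, hne⟩
        rw [Set.Finite.mem_toFinset]
        exact ⟨hβ, hd⟩
      · push Not at hd
        have : 0 < l (avg cs K β) := by
          rw [avg_apply, map_sum]
          apply Finset.sum_pos
          · intro d _
            exact lin_pos hl (((hβ.root.geo _).not_nonpos).mp (hd d)) (hβ.root.geo _).ne_zero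
          · exact ⟨1, Finset.mem_univ _⟩
        linarith
    have hsp := mem_span_of_avg H.aR H.bR K hK hT
    obtain ⟨t, ht, rfl⟩ := exists_refl_of_root hβ
    exact ⟨t, hfull t ht hsp, rfl⟩
  set γ := geo cs g⁻¹ (rt cs a) with hγ
  set γ' := geo cs g⁻¹ (rt cs b) with hγ'
  have hγP : PR cs γ := ⟨(rt_isRt H.aR).geo _, h3⟩
  have hγP' : PR cs γ' := ⟨(rt_isRt H.bR).geo _, h4⟩
  have extr : ∀ (i : B) (x y : ℝ) (u v : B →₀ ℝ), PR cs u → 0 ≤ v → 0 ≤ y → 0 < x →
      ee i = x • u + y • v → u = ee i := by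
    intro i x y u v hu hv hy hx h
    apply hu.eq_of_smul (PR_ee cs i) (a := u i)
    ext k
    by_cases hki : k = i
    · subst hki; simp [ee]
    · have h5 := DFunLike.congr_fun h k
      rw [ee, Finsupp.single_apply, if_neg (Ne.symm hki), Finsupp.add_apply, Finsupp.smul_apply,
        Finsupp.smul_apply, smul_eq_mul, smul_eq_mul] at h5
      have h6 : 0 ≤ u k := hu.pos k
      have h7 : 0 ≤ y * v k := mul_nonneg hy (hv k)
      have h8 : x * u k = 0 := by
        have := mul_nonneg hx.le h6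
        linarith
      rw [Finsupp.smul_apply, ee, Finsupp.single_apply, if_neg (Ne.symm hki), smul_zero]
      exact (mul_eq_zero.mp h8).resolve_left hx.ne'
  have hJ : ∀ i, l (avg cs K (geo cs g (ee i))) = 0 → γ = ee i ∨ γ' = ee i := by
    intro i hi
    have hrt := (isRt_ee cs i).geo g
    have hmain : ∀ β, PR cs β → l (avg cs K β) = 0 → 0 ≤ geo cs g⁻¹ β ∧ ∃ x y : ℝ, 0 ≤ x ∧ 0 ≤ y ∧
        geo cs g⁻¹ β = x • γ + y • γ' := by
      intro β hβ h0
      obtain ⟨t, ht, rfl⟩ := hvan β hβ h0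
      refine ⟨H.min_pos h3 h4 ht, ?_⟩
      obtain ⟨x, y, hx, hy, h⟩ := H.cone t ht
      exact ⟨x, y, hx, hy, by rw [h, map_add, map_smul, map_smul]⟩
    rcases hrt.cases with h | h
    · obtain ⟨_, x, y, hx, hy, h7⟩ := hmain _ ⟨hrt, h⟩ hi
      rw [geo_inv_apply] at h7
      rcases lt_or_eq_of_le hx with hx0 | hx0
      · left; exact extr i x y γ γ' hγP hγP'.pos hy hx0 h7
      · right
        have hy0 : 0 < y := by
          rcases lt_or_eq_of_le hy with hy0 | hy0
          · exact hy0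
          · exfalso
            rw [← hx0, ← hy0] at h7
            exact ee_ne_zero (B := B) i (by rw [h7]; simp)
        exact extr i y x γ' γ hγP' hγP.pos hx hy0 (by rw [h7, add_comm])
    · exfalso
      have h0 : l (avg cs K (-geo cs g (ee i))) = 0 := by
        rw [map_neg, map_neg, hi, neg_zero]
      obtain ⟨h8, _⟩ := hmain _ ⟨hrt.neg, neg_nonneg.mpr h⟩ h0
      rw [map_neg, geo_inv_apply] at h8
      exact (isRt_ee cs i).not_both (ee_nonneg i) (neg_nonneg.mp h8)
  -- existence
  have hex : ∀ (c : W) (hcK : c ∈ K) (hcr : cs.IsReflection c) (δ : B →₀ ℝ) (δ' : B →₀ ℝ),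
      δ = geo cs g⁻¹ (rt cs c) → PR cs δ → PR cs δ' → δ ≠ δ' →
      (∀ i, l (avg cs K (geo cs g (ee i))) = 0 → δ = ee i ∨ δ' = ee i) → ∃ i, δ = ee i := by
    intro c hcK hcr δ δ' hδ hδP hδP' hne hJ'
    by_contra hcon
    push Not at hcon
    have h0 : (l ∘ₗ (avg cs K) ∘ₗ (geo cs g)) δ = 0 := by
      rw [LinearMap.comp_apply, LinearMap.comp_apply, hδ, geo_apply_inv, avg_rt K hcr hcK, map_zero]
    rw [lin_expand, Finset.sum_eq_zero_iff_of_nonneg] at h0
    · have h9 : ∀ k ∈ δ.support, δ' = ee k := by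
        intro k hk
        have h10 := h0 k hk
        have h11 : δ k ≠ 0 := Finsupp.mem_support_iff.mp hk
        have h12 := (mul_eq_zero.mp h10).resolve_left h11
        exact (hJ' k h12).resolve_left (hcon k)
      obtain ⟨k, hk⟩ := Finsupp.support_nonempty_iff.mpr hδP.root.ne_zero
      apply hne
      have hsupp : ∀ k' ∈ δ.support, k' = k := by
        intro k' hk'
        have := (h9 k' hk').symm.trans (h9 k hk)
        exact Finsupp.single_left_injective one_ne_zero this
      rw [h9 k hk]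
      apply hδP.eq_of_smul (PR_ee cs k) (a := δ k)
      ext k'
      by_cases hkk : k' = k
      · subst hkk; simp [ee]
      · have : k' ∉ δ.support := fun h => hkk (hsupp k' h)
        rw [Finsupp.notMem_support_iff.mp this, Finsupp.smul_apply, ee, Finsupp.single_apply,
          if_neg (Ne.symm hkk), smul_zero]
    · intro k _
      apply mul_nonneg (hδP.pos k)
      exact hdom k
  have hγne : γ ≠ γ' := by
    intro h
    apply H.ne
    apply rt_inj H.aR H.bR
    exact geo_injective_apply cs _ h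
  obtain ⟨i, hi⟩ := hex a haK H.aR γ γ' rfl hγP hγP' hγne hJ
  obtain ⟨j, hj⟩ := hex b hbK H.bR γ' γ rfl hγP' hγP hγne.symm (fun i h => (hJ i h).symm)
  have hconj : ∀ (c : W) (hc : cs.IsReflection c) (i : B), geo cs g⁻¹ (rt cs c) = ee i →
      c = g * cs.simple i * g⁻¹ := by
    intro c hc i h
    have h1 : geo cs g (ee i) = rt cs c := by rw [← h, geo_apply_inv]
    apply rt_inj hc ((cs.isReflection_simple i).conj g)
    rw [rt_conj_pos (cs.isReflection_simple i) g (by rw [rt_simple, h1]; exact rt_pos hc), rt_simple, h1]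
  refine ⟨g, i, j, ?_, hconj a H.aR i hi, hconj b H.bR j hj, h3, h4⟩
  rintro rfl
  exact hγne (hi.trans hj.symm)

end CanPair

end Pool.Agent.V1121.QG
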