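import Pool.Agent.V1121.QG.Lev

set_option autoImplicit false

namespace Pool.Agent.V1121.QG

open CoxeterSystem

variable {B : Type*} {M : CoxeterMatrix B}
variable {W : Type*} [Group W]

/-- all reflections with root in the plane spanned by the roots of `r` and `r1` -/
def DP (cs : CoxeterSystem M W) (r r1 : W) : Set W :=
  {t | cs.IsReflection t ∧ rt cs t ∈ Submodule.span ℝ {rt cs r, rt cs r1}}

variable {cs : CoxeterSystem M W}

lemma indep_of_ne {a b : W} (ha : cs.IsReflection a) (hb : cs.IsReflection b) (hne : a ≠ b) {x y : ℝ}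
    (h : x • rt cs a + y • rt cs b = 0) : x = 0 ∧ y = 0 := by
  have key : ∀ (a b : W), cs.IsReflection a → cs.IsReflection b → a ≠ b → ∀ x y : ℝ,
      x • rt cs a + y • rt cs b = 0 → x = 0 := by
    intro a b ha hb hne x y h
    by_contra hx
    apply hne
    apply rt_inj ha hb
    apply (rt_PR ha).eq_of_smul (rt_PR hb) (a := -y / x)
    have h1 : x • rt cs a = (-y) • rt cs b := by
      rw [neg_smul]; exact eq_neg_of_add_eq_zero_left h
    calc rt cs a = x⁻¹ • (x • rt cs a) := by rw [smul_smul, inv_mul_cancel₀ hx, one_smul]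
      _ = _ := by rw [h1, smul_smul]; congr 1; field_simp
  exact ⟨key a b ha hb hne x y h, key b a hb ha (Ne.symm hne) y x (by rw [add_comm]; exact h)⟩

lemma DP_conj {r r1 : W} : ∀ u ∈ DP cs r r1, ∀ u' ∈ DP cs r r1, u * u' * u⁻¹ ∈ DP cs r r1 := by
  rintro u ⟨hu, hu2⟩ u' ⟨hu', hu2'⟩
  refine ⟨hu'.conj u, ?_⟩
  have h1 : geo cs u (rt cs u') ∈ Submodule.span ℝ {rt cs r, rt cs r1} := by
    rw [geo_refl hu]
    exact Submodule.sub_mem _ hu2' (Submodule.smul_mem _ _ hu2)
  rcases ((rt_isRt hu').geo u).cases with h | h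
  · rw [rt_conj_pos hu' u h]; exact h1
  · rw [rt_conj_neg hu' u h]; exact Submodule.neg_mem _ h1

lemma exists_canPair {r r1 : W} (hr : cs.IsReflection r) (hr1 : cs.IsReflection r1) (hne : r1 ≠ r) :
    ∃ a b, CanPair cs a b (DP cs r r1) := by
  classical
  set R : Set W := DP cs r r1 with hRdef
  have hR : ∀ u ∈ R, cs.IsReflection u := fun u hu => hu.1
  have hconj : ∀ u ∈ R, ∀ u' ∈ R, u * u' * u⁻¹ ∈ R := DP_conj
  have hrR : r ∈ R := ⟨hr, Submodule.subset_span (by simp)⟩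
  have hr1R : r1 ∈ R := ⟨hr1, Submodule.subset_span (by simp)⟩
  -- minimal elements
  obtain ⟨a, haR, hamin⟩ : ∃ a ∈ R, ∀ u ∈ R, cs.length a ≤ cs.length u := by
    obtain ⟨a, ha, hmin⟩ := WellFounded.has_min (measure cs.length).wf R ⟨r, hrR⟩
    exact ⟨a, ha, fun u hu => not_lt.mp (hmin u hu)⟩
  obtain ⟨b, ⟨hbR, hba⟩, hbmin⟩ : ∃ b ∈ R \ {a}, ∀ u ∈ R \ {a}, cs.length b ≤ cs.length u := by
    have hne2 : (R \ {a}).Nonempty := by
      by_cases h : r = a
      · exact ⟨r1, hr1R, by rw [← h]; exact hne⟩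
      · exact ⟨r, hrR, h⟩
    obtain ⟨b, hb, hmin⟩ := WellFounded.has_min (measure cs.length).wf _ hne2
    exact ⟨b, hb, fun u hu => not_lt.mp (hmin u hu)⟩
  have hba : b ≠ a := hba
  have hbmin' : ∀ u ∈ R, u ≠ a → cs.length b ≤ cs.length u := fun u hu hua => hbmin u ⟨hu, hua⟩
  have har := hR a haR
  have hbr := hR b hbR
  have ca := min_canon hR hconj haR hamin
  have cb := snd_canon hR hconj haR hamin hbR hba hbmin'
  obtain ⟨a0, a1, hae⟩ := Submodule.mem_span_pair.mp haR.2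
  obtain ⟨b0, b1, hbe⟩ := Submodule.mem_span_pair.mp hbR.2
  have hdet : a0 * b1 - a1 * b0 ≠ 0 := by
    intro h0
    have e1 : b1 • rt cs a + (-a1) • rt cs b = 0 := by
      rw [← hae, ← hbe, smul_add, smul_add, smul_smul, smul_smul, smul_smul, smul_smul]
      calc (b1 * a0) • rt cs r + (b1 * a1) • rt cs r1 + ((-a1 * b0) • rt cs r + (-a1 * b1) • rt cs r1)
          = (a0 * b1 - a1 * b0) • rt cs r := by module
        _ = 0 := by rw [h0, zero_smul]
    have e2 : (-b0) • rt cs a + a0 • rt cs b = 0 := by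
      rw [← hae, ← hbe, smul_add, smul_add, smul_smul, smul_smul, smul_smul, smul_smul]
      calc (-b0 * a0) • rt cs r + (-b0 * a1) • rt cs r1 + ((a0 * b0) • rt cs r + (a0 * b1) • rt cs r1)
          = (a0 * b1 - a1 * b0) • rt cs r1 := by module
        _ = 0 := by rw [h0, zero_smul]
    obtain ⟨h1, h2⟩ := indep_of_ne har hbr (Ne.symm hba) e1
    obtain ⟨h3, h4⟩ := indep_of_ne har hbr (Ne.symm hba) e2
    apply (rt_isRt har).ne_zero
    rw [← hae, h4, neg_eq_zero.mp h2]; simp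
  refine ⟨a, b, ⟨hR, hconj, haR, hbR, Ne.symm hba, ca, cb, ?_⟩⟩
  intro u hu
  by_cases hua : u = a
  · exact ⟨1, 0, zero_le_one, le_rfl, by rw [hua]; simp⟩
  by_cases hub : u = b
  · exact ⟨0, 1, le_rfl, zero_le_one, by rw [hub]; simp⟩
  obtain ⟨u0, u1, hue⟩ := Submodule.mem_span_pair.mp hu.2
  set x := (u0 * b1 - u1 * b0) / (a0 * b1 - a1 * b0) with hx
  set y := (a0 * u1 - a1 * u0) / (a0 * b1 - a1 * b0) with hy
  have hcomb : rt cs u = x • rt cs a + y • rt cs b := by
    rw [← hae, ← hbe, ← hue, smul_add, smul_add, smul_smul, smul_smul, smul_smul, smul_smul]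
    have e1 : x * a0 + y * b0 = u0 := by
      rw [hx, hy, div_mul_eq_mul_div, div_mul_eq_mul_div, ← add_div, div_eq_iff hdet]; ring
    have e2 : x * a1 + y * b1 = u1 := by
      rw [hx, hy, div_mul_eq_mul_div, div_mul_eq_mul_div, ← add_div, div_eq_iff hdet]; ring
    calc u0 • rt cs r + u1 • rt cs r1 = (x * a0 + y * b0) • rt cs r + (x * a1 + y * b1) • rt cs r1 := by
          rw [e1, e2]
      _ = _ := by module
  have gba : 0 ≤ geo cs b (rt cs a) := cb a haR (Ne.symm hba)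
  have gbr : 0 ≤ geo cs b (rt cs u) := cb u hu hub
  have gab : 0 ≤ geo cs a (rt cs b) := ca b hbR hba
  have gar : 0 ≤ geo cs a (rt cs u) := ca u hu hua
  have hr := hR u hu
  have hx0 : 0 ≤ x := by
    by_contra hx0
    push Not at hx0
    -- apply b
    have h1 := congrArg (geo cs b) hcomb
    rw [map_add, map_smul, map_smul, geo_rt_self hbr] at h1
    have h2 : y • rt cs b ≤ 0 := by
      have h3 : y • rt cs b = x • geo cs b (rt cs a) - geo cs b (rt cs u) := by
        rw [h1]; module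
      rw [h3]
      have h4 : x • geo cs b (rt cs a) ≤ 0 := smul_nonpos_of_nonpos_of_nonneg hx0.le gba
      exact sub_nonpos_of_le (h4.trans gbr)
    have h5 : rt cs u ≤ 0 := by
      rw [hcomb]
      have h4 : x • rt cs a ≤ 0 := smul_nonpos_of_nonpos_of_nonneg hx0.le (rt_pos har)
      exact add_nonpos h4 h2
    exact (rt_isRt hr).not_both (rt_pos hr) h5
  have hy0 : 0 ≤ y := by
    by_contra hy0
    push Not at hy0
    have h1 := congrArg (geo cs a) hcomb
    rw [map_add, map_smul, map_smul, geo_rt_self har] at h1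
    have h2 : x • rt cs a ≤ 0 := by
      have h3 : x • rt cs a = y • geo cs a (rt cs b) - geo cs a (rt cs u) := by
        rw [h1]; module
      rw [h3]
      have h4 : y • geo cs a (rt cs b) ≤ 0 := smul_nonpos_of_nonpos_of_nonneg hy0.le gab
      exact sub_nonpos_of_le (h4.trans gar)
    have h5 : rt cs u ≤ 0 := by
      rw [hcomb]
      have h4 : y • rt cs b ≤ 0 := smul_nonpos_of_nonpos_of_nonneg hy0.le (rt_pos hbr)
      exact add_nonpos h2 h4
    exact (rt_isRt hr).not_both (rt_pos hr) h5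
  exact ⟨x, y, hx0, hy0, hcomb⟩

/-- transfer of canonical pairs -/
lemma CanPair.transfer {a b : W} {D : Set W} (H : CanPair cs a b D) (g : W)
    (ha : 0 ≤ geo cs g (rt cs a)) (hb : 0 ≤ geo cs g (rt cs b)) :
    CanPair cs (g * a * g⁻¹) (g * b * g⁻¹) {t | ∃ u ∈ D, t = g * u * g⁻¹} := by
  have hrt : ∀ u ∈ D, rt cs (g * u * g⁻¹) = geo cs g (rt cs u) := fun u hu =>
    rt_conj_pos (H.refl u hu) g (H.min_pos ha hb hu)
  have hact : ∀ c ∈ D, ∀ u ∈ D, geo cs (g * c * g⁻¹) (rt cs (g * u * g⁻¹)) =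
      geo cs g (geo cs c (rt cs u)) := by
    intro c hc u hu
    rw [hrt u hu, geo_geo, geo_geo]
    congr 2; group
  refine ⟨?_, ?_, ⟨a, H.ha, rfl⟩, ⟨b, H.hb, rfl⟩, ?_, ?_, ?_, ?_⟩
  · rintro _ ⟨u, hu, rfl⟩; exact (H.refl u hu).conj g
  · rintro _ ⟨u, hu, rfl⟩ _ ⟨v, hv, rfl⟩
    exact ⟨u * v * u⁻¹, H.conj u hu v hv, by group⟩
  · intro h
    exact H.ne (mul_left_cancel (mul_right_cancel h))
  · rintro _ ⟨u, hu, rfl⟩ hne
    have hua : u ≠ a := by rintro rfl; exact hne rfl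
    rw [hact a H.ha u hu]
    have h1 := H.ca u hu hua
    rw [← rt_conj_pos (H.refl u hu) a h1]
    exact H.min_pos ha hb (H.conj a H.ha u hu)
  · rintro _ ⟨u, hu, rfl⟩ hne
    have hua : u ≠ b := by rintro rfl; exact hne rfl
    rw [hact b H.hb u hu]
    have h1 := H.cb u hu hua
    rw [← rt_conj_pos (H.refl u hu) b h1]
    exact H.min_pos ha hb (H.conj b H.hb u hu)
  · rintro _ ⟨u, hu, rfl⟩
    obtain ⟨x, y, hx, hy, h⟩ := H.cone u hu
    refine ⟨x, y, hx, hy, ?_⟩
    rw [hrt u hu, hrt a H.ha, hrt b H.hb, h, map_add, map_smul, map_smul]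

end Pool.Agent.V1121.QG
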