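import Pool.Agent.V1121.QG.Geom

set_option autoImplicit false

namespace Pool.Agent.V1121.QG

open CoxeterSystem

variable {B : Type*} {M : CoxeterMatrix B}
variable {W : Type*} [Group W] (cs : CoxeterSystem M W)

/-- being a root -/
def IsRt (v : B →₀ ℝ) : Prop := ∃ (w : W) (i : B), geo cs w (ee i) = v

/-- positive root -/
def PR (v : B →₀ ℝ) : Prop := IsRt cs v ∧ 0 ≤ v

lemma isRt_ee (i : B) : IsRt cs (ee i) := ⟨1, i, by simp⟩

lemma PR_ee (i : B) : PR cs (ee i) := ⟨isRt_ee cs i, ee_nonneg i⟩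

variable {cs}

lemma IsRt.geo {v : B →₀ ℝ} (h : IsRt cs v) (w : W) : IsRt cs (geo cs w v) := by
  obtain ⟨u, i, rfl⟩ := h
  exact ⟨w * u, i, by rw [map_mul, Module.End.mul_apply]⟩

lemma IsRt.neg {v : B →₀ ℝ} (h : IsRt cs v) : IsRt cs (-v) := by
  obtain ⟨u, i, rfl⟩ := h
  exact ⟨u * cs.simple i, i, by rw [map_mul, Module.End.mul_apply, geo_simple, sg_ee_self, map_neg]⟩

lemma IsRt.cases {v : B →₀ ℝ} (h : IsRt cs v) : 0 ≤ v ∨ v ≤ 0 := by
  obtain ⟨u, i, rfl⟩ := h
  rcases cs.length_mul_simple u i with h1 | h1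
  · left; rw [geo_nonneg_iff]; omega
  · right; rw [geo_nonpos_iff]; omega

lemma IsRt.ne_zero {v : B →₀ ℝ} (h : IsRt cs v) : v ≠ 0 := by
  obtain ⟨u, i, rfl⟩ := h
  exact geo_ee_ne_zero cs u i

lemma IsRt.not_both {v : B →₀ ℝ} (h : IsRt cs v) (h1 : 0 ≤ v) (h2 : v ≤ 0) : False :=
  h.ne_zero (le_antisymm h2 h1)

lemma IsRt.not_nonneg {v : B →₀ ℝ} (h : IsRt cs v) : ¬ 0 ≤ v ↔ v ≤ 0 := by
  constructor
  · intro h1; exact h.cases.resolve_left h1
  · intro h1 h2; exact h.not_both h2 h1

lemma IsRt.not_nonpos {v : B →₀ ℝ} (h : IsRt cs v) : ¬ v ≤ 0 ↔ 0 ≤ v := by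
  constructor
  · intro h1; exact h.cases.resolve_right h1
  · intro h1 h2; exact h.not_both h1 h2

lemma IsRt.bil_self {v : B →₀ ℝ} (h : IsRt cs v) : bil M v v = 2 := by
  obtain ⟨u, i, rfl⟩ := h
  rw [bil_geo, bil_ee_left, coroot_ee, cc_self]; norm_num

lemma PR.root {v : B →₀ ℝ} (h : PR cs v) : IsRt cs v := h.1
lemma PR.pos {v : B →₀ ℝ} (h : PR cs v) : 0 ≤ v := h.2

lemma bil_neg_left (v u : B →₀ ℝ) : bil M (-v) u = - bil M v u := by
  have := bil_smul_left (M := M) (-1) v u
  rw [neg_one_smul, neg_one_mul] at this; exact this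

lemma bil_neg_right (v u : B →₀ ℝ) : bil M v (-u) = - bil M v u := by
  rw [bil_symm, bil_neg_left, bil_symm]

lemma bil_add_left (v v' u : B →₀ ℝ) : bil M (v + v') u = bil M v u + bil M v' u := by
  have := bil_sub_left (M := M) v (-v') u
  rw [sub_neg_eq_add, bil_neg_left] at this
  rw [this]; ring

lemma bil_add_right (v v' u : B →₀ ℝ) : bil M u (v + v') = bil M u v + bil M u v' := by
  rw [bil_symm, bil_add_left, bil_symm v, bil_symm v']

/-- proportional positive roots are equal -/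
lemma PR.eq_of_smul {v v' : B →₀ ℝ} (h : PR cs v) (h' : PR cs v') {a : ℝ} (hv : v = a • v') : v = v' := by
  have h1 := h.root.bil_self
  rw [hv, bil_smul_left, bil_smul_right, h'.root.bil_self] at h1
  have h2 : (a - 1) * (a + 1) = 0 := by nlinarith
  rcases mul_eq_zero.mp h2 with h3 | h3
  · rw [hv, sub_eq_zero.mp h3, one_smul]
  · exfalso
    have ha : a = -1 := by linarith
    rw [ha, neg_one_smul] at hv
    apply h.root.not_both h.pos
    rw [hv]
    exact neg_nonpos.mpr h'.pos

/-- root reflection action determines the positive root -/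
lemma PR.eq_of_refl {v v' : B →₀ ℝ} (h : PR cs v) (h' : PR cs v')
    (hr : ∀ x, x - bil M v x • v = x - bil M v' x • v') : v = v' := by
  have h1 := hr v
  rw [h.root.bil_self] at h1
  apply h.eq_of_smul h' (a := bil M v' v / 2)
  have h2 : (2 : ℝ) • v = bil M v' v • v' := by
    have := congrArg (fun z => v - z) h1
    simpa using this
  calc v = (1 / 2 : ℝ) • ((2 : ℝ) • v) := by module
    _ = (bil M v' v / 2) • v' := by rw [h2]; module

lemma exists_root_of_refl {t : W} (ht : cs.IsReflection t) :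
    ∃ v, PR cs v ∧ ∀ x, geo cs t x = x - bil M v x • v := by
  obtain ⟨w, i, rfl⟩ := ht
  have hrt : IsRt cs (QG.geo cs w (ee i)) := (isRt_ee cs i).geo w
  rcases hrt.cases with h | h
  · exact ⟨_, ⟨hrt, h⟩, fun x => geo_conj_simple cs w i x⟩
  · refine ⟨_, ⟨hrt.neg, by simpa using h⟩, fun x => ?_⟩
    rw [geo_conj_simple cs w i x, bil_neg_left]; simp

variable (cs)

open Classical in
/-- the positive root of a reflection -/
noncomputable def rt (t : W) : B →₀ ℝ :=
  if h : cs.IsReflection t then (exists_root_of_refl h).choose else 0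

variable {cs}

lemma rt_PR {t : W} (ht : cs.IsReflection t) : PR cs (rt cs t) := by
  rw [rt, dif_pos ht]; exact (exists_root_of_refl ht).choose_spec.1

lemma rt_pos {t : W} (ht : cs.IsReflection t) : 0 ≤ rt cs t := (rt_PR ht).pos

lemma rt_isRt {t : W} (ht : cs.IsReflection t) : IsRt cs (rt cs t) := (rt_PR ht).root

lemma geo_refl {t : W} (ht : cs.IsReflection t) (x : B →₀ ℝ) :
    geo cs t x = x - bil M (rt cs t) x • rt cs t := by
  have h : rt cs t = (exists_root_of_refl ht).choose := by rw [rt, dif_pos ht]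
  rw [h]
  exact (exists_root_of_refl ht).choose_spec.2 x

lemma bil_rt_self {t : W} (ht : cs.IsReflection t) : bil M (rt cs t) (rt cs t) = 2 :=
  (rt_isRt ht).bil_self

lemma geo_rt_self {t : W} (ht : cs.IsReflection t) : geo cs t (rt cs t) = - rt cs t := by
  rw [geo_refl ht, bil_rt_self ht]; module

lemma rt_unique {t : W} (ht : cs.IsReflection t) {v : B →₀ ℝ} (hv : PR cs v)
    (h : ∀ x, geo cs t x = x - bil M v x • v) : rt cs t = v := by
  apply (rt_PR ht).eq_of_refl hv
  intro x
  rw [← geo_refl ht, h]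

lemma rt_inj {t t' : W} (ht : cs.IsReflection t) (ht' : cs.IsReflection t')
    (h : rt cs t = rt cs t') : t = t' := by
  apply geo_injective cs
  apply LinearMap.ext
  intro x
  rw [geo_refl ht, geo_refl ht', h]

lemma refl_mul_self {t : W} (ht : cs.IsReflection t) : t * t = 1 := ht.mul_self

lemma geo_geo (w w' : W) (x : B →₀ ℝ) : geo cs w (geo cs w' x) = geo cs (w * w') x := by
  rw [map_mul, Module.End.mul_apply]

lemma geo_conj_refl {t : W} (ht : cs.IsReflection t) (w : W) (x : B →₀ ℝ) :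
    geo cs (w * t * w⁻¹) x = x - bil M (geo cs w (rt cs t)) x • geo cs w (rt cs t) := by
  rw [map_mul, map_mul, Module.End.mul_apply, Module.End.mul_apply, geo_refl ht, map_sub,
    geo_apply_inv, map_smul]
  congr 2
  rw [← bil_geo cs w, geo_apply_inv]

lemma rt_conj_pos {t : W} (ht : cs.IsReflection t) (w : W) (h : 0 ≤ geo cs w (rt cs t)) :
    rt cs (w * t * w⁻¹) = geo cs w (rt cs t) :=
  rt_unique (ht.conj w) ⟨(rt_isRt ht).geo w, h⟩ (geo_conj_refl ht w)

lemma rt_conj_neg {t : W} (ht : cs.IsReflection t) (w : W) (h : geo cs w (rt cs t) ≤ 0) :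
    rt cs (w * t * w⁻¹) = - geo cs w (rt cs t) := by
  apply rt_unique (ht.conj w) ⟨((rt_isRt ht).geo w).neg, by simpa using h⟩
  intro x
  rw [geo_conj_refl ht w, bil_neg_left]; simp

lemma exists_refl_of_root {v : B →₀ ℝ} (h : PR cs v) : ∃ t, cs.IsReflection t ∧ rt cs t = v := by
  obtain ⟨⟨w, i, rfl⟩, hp⟩ := h
  refine ⟨w * cs.simple i * w⁻¹, ⟨w, i, rfl⟩, ?_⟩
  exact rt_unique ⟨w, i, rfl⟩ ⟨⟨w, i, rfl⟩, hp⟩ (geo_conj_simple cs w i)

lemma rt_simple (i : B) : rt cs (cs.simple i) = ee i := by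
  apply rt_unique (cs.isReflection_simple i) (PR_ee cs i)
  intro x
  rw [geo_simple, sg_apply, bil_ee_left]

/-- a simple reflection only changes the sign of its own root -/
lemma PR.eq_ee {v : B →₀ ℝ} (h : PR cs v) {i : B} (hi : geo cs (cs.simple i) v ≤ 0) : v = ee i := by
  classical
  have h1 : ∀ j, j ≠ i → v j = 0 := by
    intro j hj
    have h2 := hi j
    rw [geo_simple, sg_apply] at h2
    rw [Finsupp.sub_apply, Finsupp.smul_apply, ee, Finsupp.single_apply, if_neg (Ne.symm hj),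
      smul_eq_mul, mul_zero, sub_zero] at h2
    exact le_antisymm h2 (h.pos j)
  have h2 : v = (v i) • (ee i : B →₀ ℝ) := by
    ext j
    rw [Finsupp.smul_apply, ee, Finsupp.single_apply]
    by_cases hj : i = j
    · subst hj; simp
    · simp [h1 j (Ne.symm hj), hj]
  exact h.eq_of_smul (PR_ee cs i) h2

/-- word lemma -/
lemma word_split (ω : List B) {v : B →₀ ℝ} (hv : PR cs v) (h : geo cs (cs.wordProd ω) v ≤ 0) :
    ∃ ω₁ i ω₂, ω = ω₁ ++ i :: ω₂ ∧ geo cs (cs.wordProd ω₂) v = ee i := by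
  induction ω with
  | nil =>
    simp only [wordProd_nil, map_one, Module.End.one_apply] at h
    exact (hv.root.not_both hv.pos h).elim
  | cons i ω ih =>
    by_cases h1 : geo cs (cs.wordProd ω) v ≤ 0
    · obtain ⟨ω₁, j, ω₂, h2, h3⟩ := ih h1
      exact ⟨i :: ω₁, j, ω₂, by rw [h2]; rfl, h3⟩
    · have hrt := hv.root.geo (cs.wordProd ω)
      refine ⟨[], i, ω, rfl, ?_⟩
      apply PR.eq_ee (cs := cs) ⟨hrt, (hrt.not_nonpos).mp h1⟩
      rw [wordProd_cons] at h
      rwa [geo_geo]

lemma wordProd_erase {t : W} (ht : cs.IsReflection t) {ω₁ ω₂ : List B} {i : B}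
    (h : geo cs (cs.wordProd ω₂) (rt cs t) = ee i) :
    t = (cs.wordProd ω₂)⁻¹ * cs.simple i * cs.wordProd ω₂ ∧
    cs.wordProd (ω₁ ++ i :: ω₂) * t = cs.wordProd (ω₁ ++ ω₂) := by
  have h1 : cs.wordProd ω₂ * t * (cs.wordProd ω₂)⁻¹ = cs.simple i := by
    apply rt_inj (cs := cs) (ht.conj _) (cs.isReflection_simple i)
    rw [rt_conj_pos ht _ (by rw [h]; exact ee_nonneg i), h, rt_simple]
  have h2 : t = (cs.wordProd ω₂)⁻¹ * cs.simple i * cs.wordProd ω₂ := by
    rw [← h1]; group
  refine ⟨h2, ?_⟩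
  rw [wordProd_append, wordProd_append, wordProd_cons, h2]
  calc cs.wordProd ω₁ * (cs.simple i * cs.wordProd ω₂) * ((cs.wordProd ω₂)⁻¹ * cs.simple i * cs.wordProd ω₂)
      = cs.wordProd ω₁ * (cs.simple i * cs.simple i) * cs.wordProd ω₂ := by group
    _ = _ := by rw [cs.simple_mul_simple_self, mul_one]

lemma length_of_neg {t : W} (ht : cs.IsReflection t) {w : W} (h : geo cs w (rt cs t) ≤ 0) :
    cs.length (w * t) < cs.length w := by
  obtain ⟨ω, hred, rfl⟩ := cs.exists_isReduced w
  obtain ⟨ω₁, i, ω₂, rfl, h2⟩ := word_split ω (rt_PR ht) h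
  rw [(wordProd_erase (ω₁ := ω₁) ht h2).2, hred.eq]
  have := cs.length_wordProd_le (ω₁ ++ ω₂)
  simp only [List.length_append, List.length_cons] at this ⊢
  omega

lemma length_of_pos {t : W} (ht : cs.IsReflection t) {w : W} (h : 0 ≤ geo cs w (rt cs t)) :
    cs.length w < cs.length (w * t) := by
  have h1 : geo cs (w * t) (rt cs t) ≤ 0 := by
    rw [← geo_geo, geo_rt_self ht, map_neg]; simpa using h
  have h2 := length_of_neg ht h1
  rwa [mul_assoc, ht.mul_self, mul_one] at h2

lemma length_lt_iff {t : W} (ht : cs.IsReflection t) {w : W} :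
    cs.length w < cs.length (w * t) ↔ 0 ≤ geo cs w (rt cs t) := by
  constructor
  · intro h
    rcases ((rt_isRt ht).geo w).cases with h1 | h1
    · exact h1
    · have := length_of_neg ht h1; omega
  · exact length_of_pos ht

lemma length_gt_iff {t : W} (ht : cs.IsReflection t) {w : W} :
    cs.length (w * t) < cs.length w ↔ geo cs w (rt cs t) ≤ 0 := by
  constructor
  · intro h
    rcases ((rt_isRt ht).geo w).cases with h1 | h1
    · have := length_of_pos ht h1; omega
    · exact h1
  · exact length_of_neg ht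

lemma length_ne {t : W} (ht : cs.IsReflection t) (w : W) : cs.length (w * t) ≠ cs.length w :=
  ht.length_mul_left_ne w

/-- finiteness of inversion sets -/
lemma inv_finite (w : W) : {v : B →₀ ℝ | PR cs v ∧ geo cs w v ≤ 0}.Finite := by
  obtain ⟨ω, hred, rfl⟩ := cs.exists_isReduced w
  apply Set.Finite.subset
    ((Set.finite_range (fun p : Fin ω.length =>
      geo cs (cs.wordProd (ω.drop (p.1 + 1)))⁻¹ (ee (ω.get p)))))
  rintro v ⟨hv, h⟩
  obtain ⟨ω₁, i, ω₂, h1, h2⟩ := word_split ω hv h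
  refine ⟨⟨ω₁.length, ?_⟩, ?_⟩
  · rw [h1]; simp
  · simp only
    have h3 : ω.drop (ω₁.length + 1) = ω₂ := by
      rw [h1, List.drop_append]; simp
    have h4 : ω.get ⟨ω₁.length, by rw [h1]; simp⟩ = i := by
      simp [h1]
    rw [h3, h4, ← h2, geo_inv_apply]

section group
variable {G : Type*} [Group G]

lemma inv_conj_zpow {t u : G} (ht : t * t = 1) (hu : u * u = 1) (k : ℤ) :
    t * (t * u) ^ k = (t * u) ^ (-k) * t := by
  have ht' : t⁻¹ = t := inv_eq_of_mul_eq_one_left ht
  have hu' : u⁻¹ = u := inv_eq_of_mul_eq_one_left hu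
  have h1 : t * (t * u) * t⁻¹ = (t * u)⁻¹ := by
    rw [mul_inv_rev, ht', hu', ← mul_assoc t t u, ht, one_mul]
  have h2 : t * (t * u) ^ k * t⁻¹ = (t * u) ^ (-k) := by
    rw [← conj_zpow, h1, inv_zpow, zpow_neg]
  rw [← h2]; group

lemma inv_conj_zpow' {t u : G} (ht : t * t = 1) (hu : u * u = 1) (k : ℤ) :
    u * (t * u) ^ k = (t * u) ^ (-k) * u := by
  have ht' : t⁻¹ = t := inv_eq_of_mul_eq_one_left ht
  have hu' : u⁻¹ = u := inv_eq_of_mul_eq_one_left hu
  have h1 : u * (t * u) * u⁻¹ = (t * u)⁻¹ := by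
    rw [mul_inv_rev, ht', hu']
    calc u * (t * u) * u = u * t * (u * u) := by simp only [mul_assoc]
      _ = u * t := by rw [hu, mul_one]
  have h2 : u * (t * u) ^ k * u⁻¹ = (t * u) ^ (-k) := by
    rw [← conj_zpow, h1, inv_zpow, zpow_neg]
  rw [← h2]; group

end group


lemma refl_zpow {t u : W} (ht : cs.IsReflection t) (hu : cs.IsReflection u) (k : ℤ) :
    cs.IsReflection ((t * u) ^ k * t) := by
  rcases Int.even_or_odd' k with ⟨m, rfl | rfl⟩
  · have h : (t * u) ^ (2 * m) * t = (t * u) ^ m * t * ((t * u) ^ m)⁻¹ := by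
      rw [← zpow_neg, mul_assoc ((t * u) ^ m), inv_conj_zpow ht.mul_self hu.mul_self, neg_neg,
        ← mul_assoc, ← zpow_add, two_mul]
    rw [h]; exact ht.conj _
  · have h : (t * u) ^ (2 * m + 1) * t = (t * u) ^ m * (t * u * t⁻¹) * ((t * u) ^ m)⁻¹ := by
      have ht' : t⁻¹ = t := ht.inv
      rw [ht', ← zpow_neg, mul_assoc ((t * u) ^ m), mul_assoc (t * u) t,
        inv_conj_zpow ht.mul_self hu.mul_self, neg_neg,
        ← mul_assoc (t * u), ← zpow_one_add, ← mul_assoc, ← zpow_add]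
      congr 2
      ring
    rw [h]; exact (hu.conj t).conj _


/-- palindromic lemma -/
lemma pal (p : W) : ∀ (r : W), cs.IsReflection p → cs.IsReflection r → r ≠ p →
    geo cs p (rt cs r) ≤ 0 → cs.length r < cs.length p ∨ cs.length (p * r * p⁻¹) < cs.length p := by
  induction hn : cs.length p using Nat.strong_induction_on generalizing p with
  | _ n ih =>
  intro r hp hr hne hneg
  have hp1 : p ≠ 1 := by
    rintro rfl
    have := hp.odd_length
    simp at this
  obtain ⟨i, hi⟩ := cs.exists_rightDescent_of_ne_one hp1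
  set s := cs.simple i with hs
  have hsr : cs.IsReflection s := cs.isReflection_simple i
  have hi' : cs.length (p * s) < cs.length p := hi
  have hpa : geo cs p (ee i) ≤ 0 := by
    rw [← rt_simple (cs := cs) i]; exact (length_gt_iff hsr).mp hi'
  have hss : s⁻¹ = s := hsr.inv
  have hpp : p⁻¹ = p := hp.inv
  by_cases hps : p = s
  · exfalso
    apply hne
    rw [hps] at hneg ⊢
    apply rt_inj hr hsr
    rw [(rt_PR hr).eq_ee hneg, rt_simple]
  -- length of s p s
  have hneg2 : geo cs (s * p) (ee i) ≤ 0 := by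
    rw [← geo_geo]
    by_contra hcon
    have hrt := (isRt_ee cs i).geo p
    have h1 : 0 ≤ geo cs s (geo cs p (ee i)) := ((hrt.geo s).not_nonpos).mp hcon
    have h2 : - geo cs p (ee i) = ee i := by
      apply PR.eq_ee (cs := cs) ⟨hrt.neg, neg_nonneg.mpr hpa⟩
      rw [map_neg]; exact neg_nonpos.mpr h1
    apply hps
    apply rt_inj hp hsr
    rw [rt_simple]
    have h3 : geo cs p (ee i) = - ee i := by
      conv_rhs => rw [← h2]
      rw [neg_neg]
    rw [geo_refl hp] at h3
    apply (rt_PR hp).eq_of_smul (PR_ee cs i) (a := 2 / bil M (rt cs p) (ee i))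
    have h4 : bil M (rt cs p) (ee i) • rt cs p = (2 : ℝ) • ee i := by
      have := congrArg (fun z => ee i - z) h3
      simp only [sub_sub_cancel, sub_neg_eq_add] at this
      rw [this, two_smul]
    have h5 : bil M (rt cs p) (ee i) ≠ 0 := by
      intro h0
      rw [h0, zero_smul] at h4
      exact ee_ne_zero (B := B) i ((smul_eq_zero.mp h4.symm).resolve_left two_ne_zero)
    calc rt cs p = (bil M (rt cs p) (ee i))⁻¹ • (bil M (rt cs p) (ee i) • rt cs p) := by
          rw [smul_smul, inv_mul_cancel₀ h5, one_smul]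
      _ = _ := by rw [h4, smul_smul]; congr 1; field_simp
  set p' := s * p * s⁻¹ with hp'
  have hp'r : cs.IsReflection p' := hp.conj s
  have hlen1 : cs.length (s * p * s) < cs.length (s * p) := by
    rw [length_gt_iff hsr, hs, rt_simple]; exact hneg2
  have hlen2 : cs.length (s * p) = cs.length (p * s) := by
    rw [← cs.length_inv, mul_inv_rev, hss, hpp]
  have hlen : cs.length p' + 2 ≤ cs.length p := by
    rw [hp', hss]; omega
  have hs1 : cs.length s = 1 := cs.length_simple i
  by_cases hrs : r = s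
  · left; rw [hrs]; omega
  have hconj : cs.length (s * r * s⁻¹) + 2 ≥ cs.length r := by
    have e : r = s * (s * r * s⁻¹) * s := by
      rw [hss]
      calc r = (s * s) * r * (s * s) := by rw [hsr.mul_self]; simp
        _ = _ := by simp only [mul_assoc]
    have h1 := cs.length_mul_le (s * (s * r * s⁻¹)) s
    have h2 := cs.length_mul_le s (s * r * s⁻¹)
    rw [← e] at h1
    omega
  by_cases hprs : p * r * p⁻¹ = s
  · right; rw [hprs]; omega
  have hspos : 0 ≤ geo cs s (rt cs r) := by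
    by_contra hcon
    apply hrs
    apply rt_inj hr hsr
    rw [hs, rt_simple]
    exact (rt_PR hr).eq_ee ((((rt_isRt hr).geo s).not_nonneg).mp hcon)
  have hr' : rt cs (s * r * s⁻¹) = geo cs s (rt cs r) := rt_conj_pos hr s hspos
  have hq : rt cs (p * r * p⁻¹) = - geo cs p (rt cs r) := rt_conj_neg hr p hneg
  have hneg3 : geo cs p' (rt cs (s * r * s⁻¹)) ≤ 0 := by
    rw [hr', geo_geo, hp']
    have e : s * p * s⁻¹ * s = s * p := by group
    rw [e, ← geo_geo]
    by_contra hcon
    apply hprs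
    apply rt_inj (hr.conj p) hsr
    rw [hs, rt_simple]
    apply (rt_PR (hr.conj p)).eq_ee
    rw [hq, map_neg]
    have := (((rt_isRt hr).geo p).geo s).not_nonpos.mp hcon
    exact neg_nonpos.mpr this
  have hne' : s * r * s⁻¹ ≠ p' := by
    intro h
    rw [hp'] at h
    exact hne (mul_left_cancel (mul_right_cancel h))
  rcases ih (cs.length p') (by omega) p' rfl (s * r * s⁻¹) hp'r (hr.conj s) hne' hneg3 with h | h
  · left; omega
  · right
    have e : p' * (s * r * s⁻¹) * p'⁻¹ = s * (p * r * p⁻¹) * s⁻¹ := by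
      rw [hp']; group
    rw [e] at h
    have e2 : p * r * p⁻¹ = s * (s * (p * r * p⁻¹) * s⁻¹) * s := by
      rw [hss]
      calc p * r * p⁻¹ = (s * s) * (p * r * p⁻¹) * (s * s) := by rw [hsr.mul_self]; simp
        _ = _ := by simp only [mul_assoc]
    have h1 := cs.length_mul_le (s * (s * (p * r * p⁻¹) * s⁻¹)) s
    have h2 := cs.length_mul_le s (s * (p * r * p⁻¹) * s⁻¹)
    rw [← e2] at h1
    omega


lemma PR.eq_rt_of_neg {v : B →₀ ℝ} (hv : PR cs v) {b : W} (hb : cs.IsReflection b)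
    (h : geo cs b v = - v) : v = rt cs b := by
  rw [geo_refl hb] at h
  apply hv.eq_of_smul (rt_PR hb) (a := bil M (rt cs b) v / 2)
  have h1 : (2 : ℝ) • v = bil M (rt cs b) v • rt cs b := by
    have h2 : v + v = bil M (rt cs b) v • rt cs b := by
      have := congrArg (fun z => z + bil M (rt cs b) v • rt cs b + v) h
      simpa using this
    rw [two_smul, h2]
  calc v = (1 / 2 : ℝ) • ((2 : ℝ) • v) := by module
    _ = _ := by rw [h1]; module

section canon
variable {R : Set W} (hR : ∀ u ∈ R, cs.IsReflection u) (hconj : ∀ u ∈ R, ∀ u' ∈ R, u * u' * u⁻¹ ∈ R)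
include hR hconj

lemma min_canon {a : W} (ha : a ∈ R) (hmin : ∀ u ∈ R, cs.length a ≤ cs.length u) :
    ∀ u ∈ R, u ≠ a → 0 ≤ geo cs a (rt cs u) := by
  intro u hu hne
  by_contra hcon
  have hneg := ((rt_isRt (hR u hu)).geo a).not_nonneg.mp hcon
  rcases pal a u (hR a ha) (hR u hu) hne hneg with h | h
  · have := hmin u hu; omega
  · have := hmin _ (hconj a ha u hu); omega

lemma snd_canon {a b : W} (ha : a ∈ R) (hmin : ∀ u ∈ R, cs.length a ≤ cs.length u)
    (hb : b ∈ R) (hba : b ≠ a) (hmin2 : ∀ u ∈ R, u ≠ a → cs.length b ≤ cs.length u) :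
    ∀ u ∈ R, u ≠ b → 0 ≤ geo cs b (rt cs u) := by
  intro u hu hne
  by_contra hcon
  have hneg := ((rt_isRt (hR u hu)).geo b).not_nonneg.mp hcon
  have har := hR a ha
  have hbr := hR b hb
  have hbneg : geo cs b (rt cs a) ≤ 0 := by
    rcases pal b u hbr (hR u hu) hne hneg with h | h
    · have hua : u = a := by
        by_contra h2
        have := hmin2 u hu h2; omega
      rw [hua] at hneg; exact hneg
    · have hua : b * u * b⁻¹ = a := by
        by_contra h2
        have := hmin2 _ (hconj b hb u hu) h2; omega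
      rw [← hua, rt_conj_neg (hR u hu) b hneg, map_neg, geo_geo, hbr.mul_self, map_one,
        Module.End.one_apply]
      exact neg_nonpos.mpr (rt_pos (hR u hu))
  have h1 : cs.length (b * a) < cs.length b := (length_gt_iff har).mpr hbneg
  have h2 : cs.length (a * b) = cs.length (b * a) := by
    rw [← cs.length_inv, mul_inv_rev, har.inv, hbr.inv]
  have h3 : a * b * a⁻¹ ≠ a := by
    intro h
    apply hba
    have : a * b = a * a := by
      calc a * b = a * b * a⁻¹ * a := by group
        _ = a * a := by rw [h]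
    exact mul_left_cancel this
  have h4 := hmin2 _ (hconj a ha b hb) h3
  rw [har.inv] at h4
  have h5 : 0 ≤ geo cs (a * b) (rt cs a) := (length_lt_iff har).mp (by omega)
  rw [← geo_geo] at h5
  have hcr := hconj b hb a ha
  have hc := rt_conj_neg har b hbneg
  have hca : b * a * b⁻¹ ≠ a := by
    intro h
    rw [h] at hc
    have h6 : geo cs b (rt cs a) = - rt cs a := by
      conv_rhs => rw [hc]
      rw [neg_neg]
    exact hba (rt_inj hbr har ((rt_PR har).eq_rt_of_neg hbr h6).symm)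
  have h7 := min_canon hR hconj ha hmin _ hcr hca
  rw [hc, map_neg] at h7
  exact (((rt_isRt har).geo b).geo a).not_both h5 (neg_nonneg.mp h7)

end canon


end Pool.Agent.V1121.QG
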